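import Pool.Agent.W2helper7.HT.Cnt

/-!
# Twists of cyclic coverings: counting tuples with prescribed residue symbols
-/

set_option autoImplicit false

namespace Pool.Agent.W2helper7.CC

open Finset Filter Pool.Agent.W262.RK Pool.Agent.W262.TW
open Pool.Agent.W554.TW (mert size_log PS_prime)
open Pool.Agent.W460.TW (growthL growthX harm_le)
open Pool.Agent.W2helper7.HT (wt ll_V one_le_ll)

variable {S K : Type} [Fintype S] [DecidableEq S]

open Classical in
/-- the tuples -/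
noncomputable def TU (z X : ℕ) (C : S → S → ℤ) (E : S → K → ℤ) : Finset (S → ℕ) :=
  (Fintype.piFinset (fun _ : S => Icc 1 X)).filter (fun D => (∀ i, Rg z (D i)) ∧
    (∀ i j, i ≠ j → (D i).Coprime (D j)) ∧ ∏ i, D i ≤ X ∧
    (∀ i, ∀ p ∈ (D i).primeFactors, (∀ j, j ≠ i → jacobiSym (C i j * D j) p = 1) ∧
      ∀ k, jacobiSym (E i k) p = 1) ∧
    ∀ i, (∃ j, j ≠ i ∧ ¬ IsSquare (C i j * (D j : ℤ))) ∨ ∃ k, ¬ IsSquare (E i k))

lemma mem_TU {z X : ℕ} {C : S → S → ℤ} {E : S → K → ℤ} {D : S → ℕ} : D ∈ TU z X C E ↔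
    (∀ i, D i ∈ Icc 1 X) ∧ (∀ i, Rg z (D i)) ∧
    (∀ i j, i ≠ j → (D i).Coprime (D j)) ∧ ∏ i, D i ≤ X ∧
    (∀ i, ∀ p ∈ (D i).primeFactors, (∀ j, j ≠ i → jacobiSym (C i j * D j) p = 1) ∧
      ∀ k, jacobiSym (E i k) p = 1) ∧
    ∀ i, (∃ j, j ≠ i ∧ ¬ IsSquare (C i j * (D j : ℤ))) ∨ ∃ k, ¬ IsSquare (E i k) := by
  classical
  unfold TU
  rw [Finset.mem_filter, Fintype.mem_piFinset]

/-- the indices of the large members -/
def big (V : ℕ) (D : S → ℕ) : Finset S := univ.filter (fun k => V < D k)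

/-- the small members -/
def small (V : ℕ) (D : S → ℕ) : S → ℕ := fun k => if V < D k then 1 else D k

open Classical in
/-- the tuples with given small members -/
noncomputable def fib (z X : ℕ) (C : S → S → ℤ) (E : S → K → ℤ) (V : ℕ) (I : Finset S) (u : S → ℕ) :
    Finset (S → ℕ) := (TU z X C E).filter (fun D => big V D = I ∧ small V D = u)

open Classical in
/-- the sign patterns -/
noncomputable def Th (C : S → S → ℤ) (E : S → K → ℤ) (I : Finset S) (u : S → ℕ) (i : {k // k ∈ I})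
    (p : ℕ) : Finset (Finset {k // k ∈ I}) :=
  if (∀ l, l ∉ I → jacobiSym (C i l * u l) p = 1) ∧ ∀ k, jacobiSym (E i k) p = 1 then
    {univ.filter (fun j : {k // k ∈ I} => j ≠ i ∧ jacobiSym (C i j) p = -1)} else ∅

lemma Th_sub (C : S → S → ℤ) (E : S → K → ℤ) (I : Finset S) (u : S → ℕ) (i : {k // k ∈ I}) (p : ℕ) :
    Th C E I u i p ⊆ (univ.erase i).powerset := by
  classical
  unfold Th
  split_ifs
  · rw [Finset.singleton_subset_iff, Finset.mem_powerset]
    intro j hj
    rw [Finset.mem_filter] at hj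
    exact Finset.mem_erase.2 ⟨hj.2.1, mem_univ _⟩
  · exact Finset.empty_subset _

lemma Th_card (C : S → S → ℤ) (E : S → K → ℤ) (I : Finset S) (u : S → ℕ) (i : {k // k ∈ I}) (p : ℕ) :
    (Th C E I u i p).card ≤ 1 := by
  classical
  unfold Th
  split_ifs
  · rw [Finset.card_singleton]
  · rw [Finset.card_empty]; exact Nat.zero_le _

omit [Fintype S] [DecidableEq S] in
lemma small_bounds {V : ℕ} (hV : 1 ≤ V) {X : ℕ} {D : S → ℕ} (hD : ∀ i, D i ∈ Icc 1 X) (k : S) :
    1 ≤ small V D k ∧ small V D k ≤ V := by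
  have := (Finset.mem_Icc.1 (hD k)).1
  unfold small
  split_ifs with h <;> omega

lemma prod_split {V : ℕ} {D : S → ℕ} {I : Finset S} {u : S → ℕ} (h1 : big V D = I)
    (h2 : small V D = u) : (∏ i : {k // k ∈ I}, D i) * ∏ k, u k = ∏ i, D i := by
  have e1 : ∏ i : {k // k ∈ I}, D i = ∏ i ∈ I, D i := Finset.prod_coe_sort I D
  have e2 : ∏ k, u k = ∏ k ∈ Iᶜ, D k := by
    rw [← Finset.prod_mul_prod_compl I u]
    have e3 : ∏ k ∈ I, u k = 1 := by
      refine Finset.prod_eq_one fun k hk => ?_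
      rw [← h1, big, Finset.mem_filter] at hk
      rw [← h2]
      unfold small
      rw [if_pos hk.2]
    rw [e3, one_mul]
    refine Finset.prod_congr rfl fun k hk => ?_
    rw [Finset.mem_compl, ← h1, big, Finset.mem_filter] at hk
    rw [← h2]
    unfold small
    rw [if_neg fun h => hk ⟨mem_univ _, h⟩]
  rw [e1, e2]
  exact Finset.prod_mul_prod_compl I D

theorem fib_le (z X : ℕ) (C : S → S → ℤ) (E : S → K → ℤ) (V : ℕ) (I : Finset S) (u : S → ℕ)
    (hu : ∀ k, 1 ≤ u k) :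
    (fib z X C E V I u).card ≤ cnt z (X / ∏ k, u k) V (fun _ : {k // k ∈ I} => 1) (Th C E I u) := by
  classical
  obtain ⟨T, hT, hmem⟩ := Pool.Agent.W2helper7.HT.cnt_mem z (X / ∏ k, u k) V
    (fun _ : {k // k ∈ I} => 1) (Th C E I u)
  rw [← hT]
  have hU : 0 < ∏ k, u k := Finset.prod_pos fun k _ => hu k
  refine Finset.card_le_card_of_injOn (fun D => fun k : {k // k ∈ I} => D k) ?_ ?_
  · intro D hD
    rw [Finset.mem_coe, fib, Finset.mem_filter, mem_TU] at hD
    obtain ⟨⟨h1, h2, h3, h4, h5, -⟩, h6, h7⟩ := hD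
    have hsplit := prod_split h6 h7
    have hprod : ∏ i : {k // k ∈ I}, D i ≤ X / ∏ k, u k := by
      rw [Nat.le_div_iff_mul_le hU, hsplit]
      exact h4
    have hpos : ∀ i : {k // k ∈ I}, 1 ≤ D i := fun i => (Finset.mem_Icc.1 (h1 i)).1
    have hI : ∀ k, k ∈ I ↔ V < D k := by
      intro k
      rw [← h6, big, Finset.mem_filter]
      exact ⟨fun h => h.2, fun h => ⟨mem_univ _, h⟩⟩
    have hul : ∀ l, l ∉ I → u l = D l := by
      intro l hl
      rw [hI] at hl
      rw [← h7]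
      unfold small
      rw [if_neg hl]
    refine Finset.mem_coe.2 ((hmem _).2 ⟨?_, ?_, ?_, hprod, ?_⟩)
    · intro i
      rw [Finset.mem_Icc]
      refine ⟨hpos i, le_trans ?_ hprod⟩
      exact Finset.single_le_prod' (f := fun i : {k // k ∈ I} => D i) (fun i _ => hpos i) (mem_univ i)
    · exact fun i => ⟨h2 i, (hI i).1 i.2⟩
    · exact fun i j hij => h3 i j fun h => hij (Subtype.ext h)
    · intro i p hp
      obtain ⟨h8, h9⟩ := h5 i p hp
      have hcond : (∀ l, l ∉ I → jacobiSym (C i l * u l) p = 1) ∧ ∀ k, jacobiSym (E i k) p = 1 := by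
        refine ⟨fun l hl => ?_, h9⟩
        rw [hul l hl]
        exact h8 l fun h => hl (h ▸ i.2)
      unfold Th
      rw [if_pos hcond, Finset.mem_singleton]
      unfold ngs
      ext j
      simp only [Finset.mem_filter, Finset.mem_univ, true_and, one_mul]
      refine and_congr_right fun hj => ?_
      have h10 := h8 j fun h => hj (Subtype.ext h)
      rw [jacobiSym.mul_left] at h10
      rcases jacobiSym.trichotomy (C i j) p with h | h | h <;>
        rcases jacobiSym.trichotomy ((D j : ℕ) : ℤ) p with h' | h' | h' <;>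
        rw [h, h'] at h10 <;> simp_all
  · intro D hD D' hD' h
    rw [Finset.mem_coe, fib, Finset.mem_filter] at hD hD'
    funext k
    by_cases hk : k ∈ I
    · exact congrFun h ⟨k, hk⟩
    · have e1 : ∀ F : S → ℕ, big V F = I → small V F = u → F k = u k := by
        intro F hF1 hF2
        rw [← hF1, big, Finset.mem_filter] at hk
        rw [← hF2]
        unfold small
        rw [if_neg fun h => hk ⟨mem_univ _, h⟩]
      rw [e1 D hD.2.1 hD.2.2, e1 D' hD'.2.1 hD'.2.2]

/-- the weights -/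
theorem wtI (z : ℕ) (hz : 2 ≤ z) (C : S → S → ℤ) (E : S → K → ℤ) (P : ℝ)
    (hP : 0 ≤ P) (hC : ∀ i j, ((C i j).natAbs : ℝ) ≤ P) (hE : ∀ i k, ((E i k).natAbs : ℝ) ≤ P)
    (hG : ∀ i l, i ≠ l → (∃ j, j ≠ i ∧ j ≠ l ∧ ¬ IsSquare (C i j * C l j)) ∨
      ∃ k, ¬ IsSquare (E i k * E l k)) :
    ∃ C4 : ℝ, 0 ≤ C4 ∧ ∀ (X Y V : ℕ) (I : Finset S) (u : S → ℕ), 3 ≤ Y → 1 ≤ V → I.Nonempty →
      (fib z X C E V I u).Nonempty →
      ∑ i : {k // k ∈ I}, ∑ p ∈ PS z Y, ((Th C E I u i p).card : ℝ) / p ≤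
        (3 / 4 * Real.log (Real.log Y) + C4 * (1 + Real.log (Real.log ((V : ℝ) + 3)))) *
          2 ^ (Fintype.card {k // k ∈ I} - 1) := by
  classical
  obtain ⟨Cw, hCw, h1⟩ := wt z hz
  obtain ⟨Cs, hCs, h2⟩ := size_log hP
  obtain ⟨Cm, hCm, h3⟩ := mert
  refine ⟨Cw + Cs + Cm + 1, by positivity, fun X Y V I u hY hV hI hne => ?_⟩
  have hll := one_le_ll Y hY
  have hlV := ll_V V
  have hm := h3 z Y hY
  obtain ⟨n, hn⟩ : ∃ n, n = Fintype.card {k // k ∈ I} := ⟨_, rfl⟩
  have hn1 : 1 ≤ n := by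
    rw [hn, Fintype.card_coe]
    exact hI.card_pos
  rw [← hn]
  -- all members
  have hone : ∀ i : {k // k ∈ I}, ∑ p ∈ PS z Y, ((Th C E I u i p).card : ℝ) / p ≤
      Real.log (Real.log Y) + Cm := by
    intro i
    refine le_trans (Finset.sum_le_sum fun p hp => ?_) hm
    obtain ⟨hpp, -⟩ := PS_prime hp
    have hp0 : (0 : ℝ) < p := by exact_mod_cast hpp.pos
    apply div_le_div_of_nonneg_right _ hp0.le
    exact_mod_cast Th_card C E I u i p
  -- one restricted member
  have hres : ∀ i : {k // k ∈ I}, ∀ q : ℤ, ¬ IsSquare q → (q.natAbs : ℝ) ≤ P * (V : ℝ) ^ 2 →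
      (∀ p, (Th C E I u i p).Nonempty → jacobiSym q p = 1) →
      ∑ i : {k // k ∈ I}, ∑ p ∈ PS z Y, ((Th C E I u i p).card : ℝ) / p ≤
        (n : ℝ) * (Real.log (Real.log Y) + Cm) - (Real.log (Real.log Y) + Cm) +
          (1 / 2 * Real.log (Real.log Y) + Cw + 1 / 2 * (Cs + Real.log (Real.log ((V : ℝ) + 3)))) := by
    intro i q hq hqV hqp
    rw [← Finset.add_sum_erase univ _ (mem_univ i)]
    have e1 : ∑ p ∈ PS z Y, ((Th C E I u i p).card : ℝ) / p ≤
        1 / 2 * Real.log (Real.log Y) + Cw + 1 / 2 * (Cs + Real.log (Real.log ((V : ℝ) + 3))) := by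
      have e2 := h1 q hq Y hY
      have e3 := h2 V q hV hqV
      have e4 : ∑ p ∈ PS z Y, ((Th C E I u i p).card : ℝ) / p ≤ ∑ p ∈ PS z Y,
          (((if jacobiSym q p = 1 then ({∅} : Finset (Finset Unit)) else ∅).card : ℕ) : ℝ) / p := by
        refine Finset.sum_le_sum fun p hp => ?_
        obtain ⟨hpp, -⟩ := PS_prime hp
        have hp0 : (0 : ℝ) < p := by exact_mod_cast hpp.pos
        apply div_le_div_of_nonneg_right _ hp0.le
        have hc := Th_card C E I u i p
        rcases Finset.eq_empty_or_nonempty (Th C E I u i p) with h | h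
        · rw [h, Finset.card_empty]
          exact_mod_cast Nat.zero_le _
        · rw [if_pos (hqp p h), Finset.card_singleton]
          exact_mod_cast hc
      linarith
    have e5 : ∑ i ∈ univ.erase i, ∑ p ∈ PS z Y, ((Th C E I u i p).card : ℝ) / p ≤
        (n : ℝ) * (Real.log (Real.log Y) + Cm) - (Real.log (Real.log Y) + Cm) := by
      refine (Finset.sum_le_sum fun i _ => hone i).trans ?_
      rw [Finset.sum_const, Finset.card_erase_of_mem (mem_univ _), Finset.card_univ, ← hn,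
        nsmul_eq_mul, Nat.cast_sub hn1]
      push_cast
      linarith
    linarith
  obtain ⟨D, hD⟩ := hne
  rw [fib, Finset.mem_filter, mem_TU] at hD
  obtain ⟨⟨g1, -, -, -, -, g5⟩, g6, g7⟩ := hD
  have hul : ∀ l, l ∉ I → u l = D l := by
    intro l hl
    rw [← g6, big, Finset.mem_filter] at hl
    rw [← g7]
    unfold small
    rw [if_neg fun h => hl ⟨mem_univ _, h⟩]
  have hub : ∀ l, (u l : ℝ) ≤ V := by
    intro l
    rw [← g7]
    exact_mod_cast (small_bounds hV g1 l).2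
  have hV1 : (1 : ℝ) ≤ V := by exact_mod_cast hV
  have hsz1 : ∀ i j, ((C i j * (u j : ℤ)).natAbs : ℝ) ≤ P * (V : ℝ) ^ 2 := by
    intro i j
    rw [Int.natAbs_mul, Int.natAbs_natCast]
    push_cast
    calc ((C i j).natAbs : ℝ) * (u j : ℝ) ≤ P * V :=
          mul_le_mul (hC i j) (hub j) (Nat.cast_nonneg _) hP
      _ ≤ P * (V : ℝ) ^ 2 := by
          apply mul_le_mul_of_nonneg_left _ hP
          nlinarith
  have hsz2 : ∀ i k, ((E i k).natAbs : ℝ) ≤ P * (V : ℝ) ^ 2 := by
    intro i k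
    refine (hE i k).trans ?_
    have : (1 : ℝ) ≤ (V : ℝ) ^ 2 := one_le_pow₀ hV1
    nlinarith
  have hThC : ∀ (i : {k // k ∈ I}) (j : S), j ∉ I → ∀ p, (Th C E I u i p).Nonempty →
      jacobiSym (C i j * (u j : ℤ)) p = 1 := by
    intro i j hj p hp
    unfold Th at hp
    split_ifs at hp with h
    · exact h.1 j hj
    · exact absurd hp Finset.not_nonempty_empty
  have hThE : ∀ (i : {k // k ∈ I}) (k : K), ∀ p, (Th C E I u i p).Nonempty →
      jacobiSym (E i k) p = 1 := by
    intro i k p hp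
    unfold Th at hp
    split_ifs at hp with h
    · exact h.2 k
    · exact absurd hp Finset.not_nonempty_empty
  have hll' : 0 ≤ Real.log (Real.log (Y : ℝ)) := hll
  rcases Nat.lt_or_ge n 3 with hn3 | hn3
  · -- at most two large members
    have hex : ∃ (i : {k // k ∈ I}) (q : ℤ), ¬ IsSquare q ∧ (q.natAbs : ℝ) ≤ P * (V : ℝ) ^ 2 ∧
        ∀ p, (Th C E I u i p).Nonempty → jacobiSym q p = 1 := by
      rcases (by omega : n = 1 ∨ n = 2) with h | h
      · rw [hn, Fintype.card_coe, Finset.card_eq_one] at h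
        obtain ⟨i, hi⟩ := h
        have hiI : i ∈ I := by rw [hi]; exact Finset.mem_singleton_self i
        rcases g5 i with ⟨j, hj, hjs⟩ | ⟨k, hk⟩
        · have hjI : j ∉ I := by rw [hi, Finset.mem_singleton]; exact hj
          refine ⟨⟨i, hiI⟩, C i j * (u j : ℤ), ?_, hsz1 i j, fun p hp => hThC ⟨i, hiI⟩ j hjI p hp⟩
          rw [hul j hjI]
          exact hjs
        · exact ⟨⟨i, hiI⟩, E i k, hk, hsz2 i k, fun p hp => hThE ⟨i, hiI⟩ k p hp⟩
      · rw [hn, Fintype.card_coe, Finset.card_eq_two] at h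
        obtain ⟨i, l, hil, hI2⟩ := h
        have hiI : i ∈ I := by rw [hI2]; simp
        have hlI : l ∈ I := by rw [hI2]; simp
        have hsqprod : ∀ a b c : ℤ, IsSquare (a * c) → IsSquare (b * c) → c ≠ 0 → IsSquare (a * b) := by
          intro a b c ha hb hc
          have h4 : IsSquare ((a * b) * (c * c)) := by
            have := ha.mul hb
            rwa [show a * c * (b * c) = (a * b) * (c * c) by ring] at this
          obtain ⟨t, ht⟩ := h4
          have h5 : c ∣ t := by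
            have h6 : c ^ 2 ∣ t ^ 2 := ⟨a * b, by rw [sq t, ← ht]; ring⟩
            exact (Int.pow_dvd_pow_iff two_ne_zero).1 h6
          obtain ⟨s, rfl⟩ := h5
          refine ⟨s, mul_right_cancel₀ (mul_ne_zero hc hc) ?_⟩
          rw [ht]; ring
        rcases hG i l hil with ⟨j, hji, hjl, hjs⟩ | ⟨k, hk⟩
        · have hjI : j ∉ I := by rw [hI2]; simp [hji, hjl]
          have huj : (u j : ℤ) ≠ 0 := by
            rw [hul j hjI]
            have := (Finset.mem_Icc.1 (g1 j)).1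
            exact_mod_cast (by omega : D j ≠ 0)
          by_cases h5 : IsSquare (C i j * (u j : ℤ))
          · by_cases h6 : IsSquare (C l j * (u j : ℤ))
            · exact absurd (hsqprod _ _ _ h5 h6 huj) hjs
            · exact ⟨⟨l, hlI⟩, _, h6, hsz1 l j, fun p hp => hThC ⟨l, hlI⟩ j hjI p hp⟩
          · exact ⟨⟨i, hiI⟩, _, h5, hsz1 i j, fun p hp => hThC ⟨i, hiI⟩ j hjI p hp⟩
        · by_cases h5 : IsSquare (E i k)
          · by_cases h6 : IsSquare (E l k)
            · exact absurd (h5.mul h6) hk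
            · exact ⟨⟨l, hlI⟩, _, h6, hsz2 l k, fun p hp => hThE ⟨l, hlI⟩ k p hp⟩
          · exact ⟨⟨i, hiI⟩, _, h5, hsz2 i k, fun p hp => hThE ⟨i, hiI⟩ k p hp⟩
    obtain ⟨i, q, hq, hqV, hqp⟩ := hex
    refine (hres i q hq hqV hqp).trans ?_
    rcases (by omega : n = 1 ∨ n = 2) with h | h
    · rw [h]
      norm_num
      nlinarith
    · rw [h]
      norm_num
      nlinarith
  · -- at least three large members
    have hsum : ∑ i : {k // k ∈ I}, ∑ p ∈ PS z Y, ((Th C E I u i p).card : ℝ) / p ≤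
        (n : ℝ) * (Real.log (Real.log Y) + Cm) := by
      refine (Finset.sum_le_sum fun i _ => hone i).trans ?_
      rw [Finset.sum_const, Finset.card_univ, ← hn, nsmul_eq_mul]
    refine hsum.trans ?_
    have hpow : (n : ℝ) ≤ 3 / 4 * 2 ^ (n - 1) := by
      obtain ⟨m, rfl⟩ : ∃ m, n = m + 3 := ⟨n - 3, by omega⟩
      have h4 : (m + 3 : ℕ) ≤ 3 * 2 ^ m := by
        clear hn hn1 hn3 hres hsum hP
        induction m with
        | zero => norm_num
        | succ m ih =>
          have h5 : 1 ≤ 2 ^ m := Nat.one_le_two_pow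
          rw [pow_succ]
          omega
      have h5 : ((m + 3 : ℕ) : ℝ) ≤ 3 * 2 ^ m := by exact_mod_cast h4
      rw [show m + 3 - 1 = m + 2 by omega, pow_add]
      linarith
    have hpow1 : (1 : ℝ) ≤ 2 ^ (n - 1) := one_le_pow₀ (by norm_num)
    have e1 : (n : ℝ) * Real.log (Real.log Y) ≤ 3 / 4 * 2 ^ (n - 1) * Real.log (Real.log Y) :=
      mul_le_mul_of_nonneg_right hpow hll'
    have e2 : (n : ℝ) * Cm ≤ 2 ^ (n - 1) * Cm := by
      apply mul_le_mul_of_nonneg_right _ hCm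
      linarith
    have e3 : Cm ≤ (Cw + Cs + Cm + 1) * (1 + Real.log (Real.log ((V : ℝ) + 3))) := by nlinarith
    nlinarith

end Pool.Agent.W2helper7.CC
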