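import Pool.Agent.W2helper7.CC.Main
import Pool.Agent.W2helper7.HT.Fin

/-!
# Twists of cyclic coverings: finitely many constant types; all integers `d`
-/

set_option autoImplicit false

namespace Pool.Agent.W2helper7.CC

open Finset Filter Polynomial Topology Pool.Agent.W262.RK Pool.Agent.W262.TW
open Pool.Agent.W311.TW (exists_sqf)
open Pool.Agent.W2helper7.HT (ev sq_mul_iff InS inS_finite ev_roots one_le_X big_squares)

variable {ι K : Type}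

/-- some nontrivial point on some covering of the family -/
def BadE [Fintype ι] [Fintype K] (a : ι → ℤ) (g : K → ℤ[X]) (h : ℤ[X]) (c : ℚ) (d : ℤ) : Prop :=
  ∃ (N : ℕ) (e : ι → ℕ) (r : Option K → ℕ), Exps N (qq g h) e r ∧ ∃ x w : ℚ,
    Pt a (qq g h) c N e r d x w

/-- the rational numbers of constant type -/
def CT (a : ι → ℤ) (g : K → ℤ[X]) : Set ℚ := {x | (∃ i, ConstF a g i x) ∨ ConstI a g x}

variable [Fintype ι] [DecidableEq ι] [Fintype K] [DecidableEq K]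

omit [DecidableEq ι] in
/-- the square class of `d` from a point -/
lemma class_of (a : ι → ℤ) (g : K → ℤ[X]) (h : ℤ[X]) (c : ℚ) {N : ℕ} {e : ι → ℕ}
    {r : Option K → ℕ} (hExp : Exps N (qq g h) e r) {d : ℤ} (hd : d ≠ 0) (hc : c ≠ 0) {x w : ℚ}
    (hPt : Pt a (qq g h) c N e r d x w) :
    ∃ T : Finset (Option K), c * ((∏ i, (x - a i)) * ∏ k ∈ T, ev (qq g h k) x) ≠ 0 ∧
      IsSquare ((d : ℚ) * (c * ((∏ i, (x - a i)) * ∏ k ∈ T, ev (qq g h k) x))) := by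
  classical
  obtain ⟨hN, hN2, he, hr, -, -⟩ := hExp
  obtain ⟨hw, heq⟩ := hPt
  have hdQ : (d : ℚ) ≠ 0 := by exact_mod_cast hd
  have hodd : ∀ i, Odd (e i) := by
    intro i
    by_contra hcon
    rw [Nat.not_odd_iff_even] at hcon
    have h2 := Nat.dvd_gcd hcon.two_dvd hN2.two_dvd
    rw [(he i)] at h2
    omega
  have hne : (∏ i, (x - a i) ^ e i) * ∏ k, (ev (qq g h k) x) ^ r k ≠ 0 := by
    intro h0
    rw [h0, mul_zero] at heq
    exact mul_ne_zero hdQ (pow_ne_zero _ hw) heq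
  have h1 := left_ne_zero_of_mul hne
  have h2 := right_ne_zero_of_mul hne
  refine ⟨Finset.univ.filter (fun k => Odd (r k)), ?_, ?_⟩
  · refine mul_ne_zero hc (mul_ne_zero ?_ ?_)
    · rw [Finset.prod_ne_zero_iff] at h1 ⊢
      intro i hi h3
      apply h1 i hi
      rw [h3, zero_pow]
      exact (hodd i).pos.ne'
    · rw [Finset.prod_ne_zero_iff] at h2 ⊢
      intro k hk h3
      apply h2 k (mem_univ k)
      rw [h3, zero_pow]
      exact (Finset.mem_filter.1 hk).2.pos.ne'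
  · have hwN : w ^ N ≠ 0 := pow_ne_zero _ hw
    obtain ⟨n, rfl⟩ := hN2
    rw [← sq_mul_iff (pow_ne_zero n hw)]
    have h3 : (d : ℚ) * (c * ((∏ i, (x - a i)) * ∏ k ∈ Finset.univ.filter (fun k => Odd (r k)),
        ev (qq g h k) x)) * (w ^ n) ^ 2 =
        (c * c) * ((∏ i, (x - a i) ^ e i * (x - a i)) *
          ∏ k, (ev (qq g h k) x) ^ r k * (if Odd (r k) then ev (qq g h k) x else 1)) := by
      rw [Finset.prod_mul_distrib, Finset.prod_mul_distrib, ← Finset.prod_filter]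
      linear_combination (c * ((∏ i, (x - a i)) * ∏ k ∈ Finset.univ.filter (fun k => Odd (r k)),
        ev (qq g h k) x)) * heq
    rw [h3]
    refine IsSquare.mul ⟨c, rfl⟩ (IsSquare.mul (Finset.isSquare_prod _ fun i _ => ?_)
      (Finset.isSquare_prod _ fun k _ => ?_))
    · obtain ⟨m, hm⟩ := hodd i
      rw [hm]
      exact ⟨(x - a i) ^ (m + 1), by ring⟩
    · split_ifs with hk
      · obtain ⟨m, hm⟩ := hk
        rw [hm]
        exact ⟨(ev (qq g h k) x) ^ (m + 1), by ring⟩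
      · rw [Nat.not_odd_iff_even] at hk
        obtain ⟨m, hm⟩ := hk
        rw [hm]
        exact ⟨(ev (qq g h k) x) ^ m, by ring⟩

/-- **finitely many constant types** -/
theorem mainB (a : ι → ℤ) (g : K → ℤ[X]) (h : ℤ[X]) (hA : Adm a g h) (hfin : (CT a g).Finite)
    (c : ℚ) (hc : c ≠ 0) :
    ∃ C : ℝ, 0 ≤ C ∧ ∀ X : ℕ, 3 ≤ X →
    ({d : ℤ | d.natAbs ≤ X ∧ (Squarefree d ∧ BadE a g h c d)}.ncard : ℝ) ≤
      C * X * (Real.log X) ^ (-(1 / 5 : ℝ)) := by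
  classical
  obtain ⟨C, hC, H⟩ := mainA a g h hA c hc
  obtain ⟨S, hS⟩ : ∃ S : Set ℚ, S = ⋃ T : Finset (Option K),
      (fun x : ℚ => c * ((∏ i, (x - a i)) * ∏ k ∈ T, ev (qq g h k) x)) '' (CT a g) := ⟨_, rfl⟩
  have hSfin : S.Finite := by
    rw [hS]
    exact Set.finite_iUnion fun T => hfin.image _
  have hT := inS_finite hSfin
  refine ⟨C + {d : ℤ | Squarefree d ∧ InS S d}.ncard, by positivity, fun X hX => ?_⟩
  have hsub : {d : ℤ | d.natAbs ≤ X ∧ (Squarefree d ∧ BadE a g h c d)} ⊆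
      {d : ℤ | d.natAbs ≤ X ∧ (Squarefree d ∧ Bad a g h c d)} ∪ {d : ℤ | Squarefree d ∧ InS S d} := by
    rintro d ⟨hdX, hd, N, e, r, hExp, x, w, hPt⟩
    by_cases hct : x ∈ CT a g
    · right
      obtain ⟨T, h1, h2⟩ := class_of a g h c hExp hd.ne_zero hc hPt
      refine ⟨hd, _, ?_, h1, h2⟩
      rw [hS, Set.mem_iUnion]
      exact ⟨T, x, hct, rfl⟩
    · left
      refine ⟨hdX, hd, N, e, r, hExp, x, w, hPt, fun i hi => hct (Or.inl ⟨i, hi⟩),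
        fun hi => hct (Or.inr hi)⟩
  have hfin1 : {d : ℤ | d.natAbs ≤ X ∧ (Squarefree d ∧ Bad a g h c d)}.Finite := by
    apply (Set.finite_Icc (-(X : ℤ)) X).subset
    intro d hd
    have h1 : d.natAbs ≤ X := hd.1
    rw [Set.mem_Icc]
    omega
  have h1 := (Set.ncard_le_ncard hsub (hfin1.union hT)).trans (Set.ncard_union_le _ _)
  have h2 : ({d : ℤ | d.natAbs ≤ X ∧ (Squarefree d ∧ BadE a g h c d)}.ncard : ℝ) ≤
      ({d : ℤ | d.natAbs ≤ X ∧ (Squarefree d ∧ Bad a g h c d)}.ncard : ℝ) +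
        ({d : ℤ | Squarefree d ∧ InS S d}.ncard : ℝ) := by exact_mod_cast h1
  have h3 := one_le_X hX
  have h4 := H X hX
  have h5 : (0 : ℝ) ≤ ({d : ℤ | Squarefree d ∧ InS S d}.ncard : ℝ) := Nat.cast_nonneg _
  nlinarith

/-! ### All integers `d` -/

omit [DecidableEq ι] [DecidableEq K] in
lemma badE_scl (a : ι → ℤ) (g : K → ℤ[X]) (h : ℤ[X]) (c : ℚ) {b : ℕ} (hb : b ≠ 0) (s : ℤ)
    (hbad : BadE a g h c (s * (b : ℤ) ^ 2)) : BadE a g h (c / (b : ℚ) ^ 2) s := by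
  have hb0 : (b : ℚ) ≠ 0 := by exact_mod_cast hb
  obtain ⟨N, e, r, hExp, x, w, hw, heq⟩ := hbad
  refine ⟨N, e, r, hExp, x, w, hw, ?_⟩
  push_cast at heq
  field_simp
  linear_combination heq

omit [DecidableEq ι] [DecidableEq K] in
lemma bad_scl (a : ι → ℤ) (g : K → ℤ[X]) (h : ℤ[X]) (c : ℚ) {b : ℕ} (hb : b ≠ 0) (s : ℤ)
    (hbad : Bad a g h c (s * (b : ℤ) ^ 2)) : Bad a g h (c / (b : ℚ) ^ 2) s := by
  have hb0 : (b : ℚ) ≠ 0 := by exact_mod_cast hb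
  obtain ⟨N, e, r, hExp, x, w, ⟨hw, heq⟩, h1, h2⟩ := hbad
  refine ⟨N, e, r, hExp, x, w, ⟨hw, ?_⟩, h1, h2⟩
  push_cast at heq
  field_simp
  linear_combination heq

omit [Fintype ι] [DecidableEq ι] [Fintype K] [DecidableEq K] in
/-- **all integers `d`**: density zero -/
theorem all_int (P : ℚ → ℤ → Prop) (hP : ∀ c : ℚ, c ≠ 0 → ∃ C : ℝ, 0 ≤ C ∧ ∀ X : ℕ, 3 ≤ X →
    ({d : ℤ | d.natAbs ≤ X ∧ (Squarefree d ∧ P c d)}.ncard : ℝ) ≤
      C * X * (Real.log X) ^ (-(1 / 5 : ℝ)))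
    (hscl : ∀ (c : ℚ) (b : ℕ), b ≠ 0 → ∀ s : ℤ, P c (s * (b : ℤ) ^ 2) → P (c / (b : ℚ) ^ 2) s)
    (c : ℚ) (hc : c ≠ 0) :
    Tendsto (fun X : ℕ => ({d : ℤ | d.natAbs ≤ X ∧ d ≠ 0 ∧ P c d}.ncard : ℝ) / X) atTop
      (𝓝 0) := by
  classical
  have hb : ∀ b : ℕ, ∃ C : ℝ, 0 ≤ C ∧ (b ≠ 0 → ∀ X : ℕ, 3 ≤ X →
      ({d : ℤ | d.natAbs ≤ X ∧ (Squarefree d ∧ P (c / (b : ℚ) ^ 2) d)}.ncard : ℝ) ≤
        C * X * (Real.log X) ^ (-(1 / 5 : ℝ))) := by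
    intro b
    by_cases hb : b = 0
    · exact ⟨0, le_rfl, fun h => absurd hb h⟩
    · have hb0 : (b : ℚ) ≠ 0 := by exact_mod_cast hb
      obtain ⟨C, hC, H⟩ := hP (c / (b : ℚ) ^ 2) (div_ne_zero hc (pow_ne_zero _ hb0))
      exact ⟨C, hC, fun _ => H⟩
  choose Cb hCb0 hCb using hb
  have hlog : Tendsto (fun X : ℕ => (Real.log X) ^ (-(1 / 5 : ℝ))) atTop (𝓝 0) :=
    (tendsto_rpow_neg_atTop (by norm_num : (0 : ℝ) < 1 / 5)).comp
      (Real.tendsto_log_atTop.comp tendsto_natCast_atTop_atTop)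
  rw [Metric.tendsto_atTop]
  intro ε hε
  obtain ⟨B, hB⟩ := exists_nat_gt (4 / ε)
  have hB0 : (0 : ℝ) < B := lt_trans (by positivity) hB
  have hB1 : 1 ≤ B := by exact_mod_cast hB0
  have hlog2 : Tendsto (fun X : ℕ => (∑ b ∈ Finset.Icc 1 B, Cb b) * (Real.log X) ^ (-(1 / 5 : ℝ)))
      atTop (𝓝 0) := by
    have := hlog.const_mul (∑ b ∈ Finset.Icc 1 B, Cb b)
    rwa [mul_zero] at this
  obtain ⟨X0, hX0⟩ := (Metric.tendsto_atTop.1 hlog2) (ε / 2) (by positivity)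
  refine ⟨max X0 3, fun X hX => ?_⟩
  have hXX0 : X0 ≤ X := (le_max_left _ _).trans hX
  have hX3 : 3 ≤ X := (le_max_right _ _).trans hX
  have hXpos : (0 : ℝ) < X := by
    have : (3 : ℝ) ≤ X := by exact_mod_cast hX3
    linarith
  have h1 := hX0 X hXX0
  rw [Real.dist_eq, sub_zero] at h1 ⊢
  have h1 := (le_abs_self _).trans_lt h1
  rw [abs_of_nonneg (by positivity), div_lt_iff₀ hXpos]
  have hsub : {d : ℤ | d.natAbs ≤ X ∧ d ≠ 0 ∧ P c d} ⊆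
      (⋃ b ∈ Finset.Icc 1 B, (fun s : ℤ => s * (b : ℤ) ^ 2) ''
        {d : ℤ | d.natAbs ≤ X ∧ (Squarefree d ∧ P (c / (b : ℚ) ^ 2) d)}) ∪
      {d : ℤ | d.natAbs ≤ X ∧ d ≠ 0 ∧ ∃ b : ℕ, B < b ∧ (b : ℤ) ^ 2 ∣ d} := by
    rintro d ⟨hdX, hd0, hbad⟩
    obtain ⟨s, t, ht, hs, hst⟩ := exists_sqf d hd0
    have hst' : d = s * ((t.natAbs : ℕ) : ℤ) ^ 2 := by
      rw [hst, Int.natAbs_sq]
    rcases le_or_gt t.natAbs B with h | h
    · left
      rw [Set.mem_iUnion₂]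
      refine ⟨t.natAbs, Finset.mem_Icc.2 ⟨Int.natAbs_pos.2 ht, h⟩, s, ⟨?_, hs, ?_⟩, hst'.symm⟩
      · refine le_trans ?_ hdX
        rw [hst, Int.natAbs_mul, Int.natAbs_pow]
        exact Nat.le_mul_of_pos_right _ (pow_pos (Int.natAbs_pos.2 ht) 2)
      · rw [hst'] at hbad
        exact hscl c _ (Int.natAbs_pos.2 ht).ne' s hbad
    · right
      exact ⟨hdX, hd0, t.natAbs, h, ⟨s, by rw [hst']; ring⟩⟩
  have hfinI : ∀ Q : ℤ → Prop, {d : ℤ | d.natAbs ≤ X ∧ Q d}.Finite := by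
    intro Q
    apply (Set.finite_Icc (-(X : ℤ)) X).subset
    intro d hd
    have h1 : d.natAbs ≤ X := hd.1
    rw [Set.mem_Icc]
    omega
  have hfinU : (⋃ b ∈ Finset.Icc 1 B, (fun s : ℤ => s * (b : ℤ) ^ 2) ''
        {d : ℤ | d.natAbs ≤ X ∧ (Squarefree d ∧ P (c / (b : ℚ) ^ 2) d)}).Finite :=
    Set.Finite.biUnion (Finset.finite_toSet _) fun b _ => (hfinI _).image _
  have h2 := (Set.ncard_le_ncard hsub (hfinU.union (hfinI _))).trans (Set.ncard_union_le _ _)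
  have h3 : (⋃ b ∈ Finset.Icc 1 B, (fun s : ℤ => s * (b : ℤ) ^ 2) ''
        {d : ℤ | d.natAbs ≤ X ∧ (Squarefree d ∧ P (c / (b : ℚ) ^ 2) d)}).ncard ≤
      ∑ b ∈ Finset.Icc 1 B,
        {d : ℤ | d.natAbs ≤ X ∧ (Squarefree d ∧ P (c / (b : ℚ) ^ 2) d)}.ncard := by
    have key : ∀ T : Finset ℕ, (⋃ b ∈ T, (fun s : ℤ => s * (b : ℤ) ^ 2) ''
        {d : ℤ | d.natAbs ≤ X ∧ (Squarefree d ∧ P (c / (b : ℚ) ^ 2) d)}).ncard ≤
      ∑ b ∈ T, {d : ℤ | d.natAbs ≤ X ∧ (Squarefree d ∧ P (c / (b : ℚ) ^ 2) d)}.ncard := by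
      intro T
      induction T using Finset.induction_on with
      | empty => simp
      | insert b T hb ih =>
        rw [Finset.sum_insert hb, Finset.set_biUnion_insert]
        exact (Set.ncard_union_le _ _).trans (add_le_add (Set.ncard_image_le (hfinI _)) ih)
    exact key _
  have h4 : ({d : ℤ | d.natAbs ≤ X ∧ d ≠ 0 ∧ P c d}.ncard : ℝ) ≤
      (∑ b ∈ Finset.Icc 1 B, Cb b) * (Real.log X) ^ (-(1 / 5 : ℝ)) * X + 2 * X * (B : ℝ)⁻¹ := by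
    have h5 : ({d : ℤ | d.natAbs ≤ X ∧ d ≠ 0 ∧ P c d}.ncard : ℝ) ≤
        ∑ b ∈ Finset.Icc 1 B,
          ({d : ℤ | d.natAbs ≤ X ∧ (Squarefree d ∧ P (c / (b : ℚ) ^ 2) d)}.ncard : ℝ) +
        ({d : ℤ | d.natAbs ≤ X ∧ d ≠ 0 ∧ ∃ b : ℕ, B < b ∧ (b : ℤ) ^ 2 ∣ d}.ncard : ℝ) := by
      exact_mod_cast h2.trans (add_le_add h3 le_rfl)
    refine h5.trans (add_le_add ?_ (big_squares B X hB1))
    rw [Finset.sum_mul, Finset.sum_mul]
    refine Finset.sum_le_sum fun b hb => ?_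
    have hb1 := (Finset.mem_Icc.1 hb).1
    refine (hCb b (by omega) X hX3).trans (le_of_eq (by ring))
  refine h4.trans_lt ?_
  have h6 : 2 * (X : ℝ) * (B : ℝ)⁻¹ < ε / 2 * X := by
    have h7 : 2 * (B : ℝ)⁻¹ < ε / 2 := by
      rw [← div_eq_mul_inv, div_lt_iff₀ hB0]
      rw [div_lt_iff₀ hε] at hB
      linarith
    nlinarith
  nlinarith

theorem mainC (a : ι → ℤ) (g : K → ℤ[X]) (h : ℤ[X]) (hA : Adm a g h) (hfin : (CT a g).Finite)
    (c : ℚ) (hc : c ≠ 0) :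
    Tendsto (fun X : ℕ => ({d : ℤ | d.natAbs ≤ X ∧ d ≠ 0 ∧ BadE a g h c d}.ncard : ℝ) / X) atTop
      (𝓝 0) :=
  all_int (BadE a g h) (mainB a g h hA hfin) (fun c _ hb s hs => badE_scl a g h c hb s hs) c hc

theorem mainD (a : ι → ℤ) (g : K → ℤ[X]) (h : ℤ[X]) (hA : Adm a g h) (c : ℚ) (hc : c ≠ 0) :
    Tendsto (fun X : ℕ => ({d : ℤ | d.natAbs ≤ X ∧ d ≠ 0 ∧ Bad a g h c d}.ncard : ℝ) / X) atTop
      (𝓝 0) :=
  all_int (Bad a g h) (mainA a g h hA) (fun c _ hb s hs => bad_scl a g h c hb s hs) c hc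

end Pool.Agent.W2helper7.CC
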