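import Pool.Agent.W2helper7.CC.Cnt

/-!
# Twists of cyclic coverings: the number of the tuples
-/

set_option autoImplicit false

namespace Pool.Agent.W2helper7.CC

open Finset Filter Pool.Agent.W262.RK Pool.Agent.W262.TW
open Pool.Agent.W460.TW (growthL growthX harm_le)
open Pool.Agent.W2helper7.HT (ll_V one_le_ll)

variable {S K : Type} [Fintype S] [DecidableEq S]

lemma u_sum (V : ℕ) : ∑ u ∈ Fintype.piFinset (fun _ : S => Icc 1 V), ((∏ k, u k : ℕ) : ℝ)⁻¹ ≤
      (∑ n ∈ Icc 1 V, ((n : ℝ))⁻¹) ^ Fintype.card S := by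
  classical
  have h2 : ∀ u : S → ℕ, ((∏ k, u k : ℕ) : ℝ)⁻¹ = ∏ k, ((u k : ℝ))⁻¹ := by
    intro u
    rw [Nat.cast_prod, Finset.prod_inv_distrib]
  simp only [h2]
  refine le_of_eq ?_
  rw [← Finset.prod_univ_sum (fun _ : S => Icc 1 V) (fun _ n => ((n : ℝ))⁻¹), Finset.prod_const,
    Finset.card_univ]

lemma TU_card (z X : ℕ) (C : S → S → ℤ) (E : S → K → ℤ) (V : ℕ) (hV : 1 ≤ V) :
    (TU z X C E).card ≤ V ^ Fintype.card S +
      ∑ I ∈ univ.filter (fun I : Finset S => I.Nonempty),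
        ∑ u ∈ Fintype.piFinset (fun _ : S => Icc 1 V), (fib z X C E V I u).card := by
  classical
  have h1 : (TU z X C E).card = ∑ q ∈ (univ : Finset (Finset S)) ×ˢ
      Fintype.piFinset (fun _ : S => Icc 1 V),
      ((TU z X C E).filter (fun D => (big V D, small V D) = q)).card := by
    apply Finset.card_eq_sum_card_fiberwise
    intro D hD
    rw [Finset.mem_coe, mem_TU] at hD
    rw [Finset.mem_coe, Finset.mem_product]
    refine ⟨mem_univ _, Fintype.mem_piFinset.2 fun k => Finset.mem_Icc.2 (small_bounds hV hD.1 k)⟩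
  have h2 : ∀ q : Finset S × (S → ℕ), ((TU z X C E).filter (fun D => (big V D, small V D) = q)).card =
      (fib z X C E V q.1 q.2).card := by
    rintro ⟨I, u⟩
    unfold fib
    congr 1
    ext D
    simp only [Finset.mem_filter, Prod.mk.injEq]
  rw [h1, Finset.sum_congr rfl fun q _ => h2 q, Finset.sum_product]
  rw [← Finset.sum_filter_add_sum_filter_not univ (fun I : Finset S => I.Nonempty), add_comm]
  refine add_le_add ?_ le_rfl
  have h3 : (univ.filter fun I : Finset S => ¬ I.Nonempty) = {∅} := by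
    ext I
    rw [Finset.mem_filter, Finset.mem_singleton, Finset.not_nonempty_iff_eq_empty]
    exact ⟨fun h => h.2, fun h => ⟨mem_univ _, h⟩⟩
  rw [h3, Finset.sum_singleton]
  have h4 : ∀ u ∈ Fintype.piFinset (fun _ : S => Icc 1 V), (fib z X C E V ∅ u).card ≤ 1 := by
    intro u _
    rw [Finset.card_le_one]
    have e : ∀ D ∈ fib z X C E V ∅ u, D = u := by
      intro D hD
      rw [fib, Finset.mem_filter] at hD
      obtain ⟨-, h5, h6⟩ := hD
      rw [← h6]
      funext k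
      have h7 : k ∉ big V D := by rw [h5]; exact Finset.notMem_empty k
      rw [big, Finset.mem_filter] at h7
      unfold small
      rw [if_neg fun h => h7 ⟨mem_univ _, h⟩]
    intro D hD D' hD'
    rw [e D hD, e D' hD']
  refine (Finset.sum_le_sum h4).trans ?_
  rw [Finset.sum_const, Fintype.card_piFinset, smul_eq_mul, mul_one, Finset.prod_const,
    Nat.card_Icc, Finset.card_univ, Nat.add_sub_cancel]

theorem key (C : S → S → ℤ) (E : S → K → ℤ) (z : ℕ) (hz : 2 ≤ z) (P : ℝ)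
    (hP0 : 0 ≤ P) (hC : ∀ i j, ((C i j).natAbs : ℝ) ≤ P) (hE : ∀ i k, ((E i k).natAbs : ℝ) ≤ P)
    (hG : ∀ i l, i ≠ l → (∃ j, j ≠ i ∧ j ≠ l ∧ ¬ IsSquare (C i j * C l j)) ∨
      ∃ k, ¬ IsSquare (E i k * E l k)) :
    ∃ C0 : ℝ, 0 ≤ C0 ∧ ∀ᶠ X : ℕ in atTop,
      ((TU z X C E).card : ℝ) ≤ C0 * X * (Real.log X) ^ (-(1 / 5 : ℝ)) := by
  classical
  obtain ⟨C4, hC4, hPw⟩ := wtI z hz C E P hP0 hC hE hG
  choose Bf hBf using fun I : Finset S => abs1_all {k // k ∈ I} (1 / 100) (by norm_num)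
  set B : ℕ := 1 + ∑ I, Bf I with hB
  have hBI : ∀ I, Bf I ≤ B := fun I => by
    have := Finset.single_le_sum (f := Bf) (fun _ _ => Nat.zero_le _) (Finset.mem_univ I)
    omega
  choose Cf hCf using fun I : Finset S => hBf I (B + 10)
  set N := Fintype.card S with hN
  refine ⟨1 + 3 * ∑ I, |Cf I|, by positivity, ?_⟩
  have eL : ∀ᶠ X : ℕ in atTop, Real.exp (C4 * (1 + Real.log ((B + 2 : ℝ) *
      Real.log (Real.log X)))) ≤ (Real.log X) ^ (1 / 100 : ℝ) ∧
      (1 + (B + 2 : ℝ) * Real.log (Real.log X)) ^ N ≤ (Real.log X) ^ (1 / 100 : ℝ) := by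
    have h := growthL (B + 2 : ℝ) N C4 (by
      have : (0 : ℝ) ≤ B := Nat.cast_nonneg B
      linarith)
    exact (Real.tendsto_log_atTop.comp tendsto_natCast_atTop_atTop).eventually h
  have eX := tendsto_natCast_atTop_atTop.eventually (growthX B N)
  have e3 : ∀ᶠ X : ℕ in atTop, max 3 (2 * 3 ^ (B + 10)) ≤ Real.log (X : ℝ) :=
    (Real.tendsto_log_atTop.comp tendsto_natCast_atTop_atTop).eventually (eventually_ge_atTop _)
  filter_upwards [eL, eX, e3] with X hL hX h3L
  obtain ⟨hL1, hL2⟩ := hL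
  obtain ⟨hX1, hX2, hX3, hX4⟩ := hX
  set L := Real.log (X : ℝ) with hLdef
  have hL3 : 3 ≤ L := (le_max_left _ _).trans h3L
  have hLbig : 2 * 3 ^ (B + 10) ≤ L := (le_max_right _ _).trans h3L
  have hL0 : 0 < L := by linarith
  have hXpos : (0 : ℝ) < X := by
    by_contra h
    have : (X : ℝ) = 0 := le_antisymm (not_lt.mp h) (Nat.cast_nonneg X)
    rw [hLdef, this, Real.log_zero] at hL0
    exact lt_irrefl _ hL0
  set V : ℕ := ⌈L ^ B⌉₊ with hVdef
  have hLB1 : (1 : ℝ) ≤ L ^ B := one_le_pow₀ (by linarith)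
  have hVge : L ^ B ≤ V := Nat.le_ceil _
  have hVle : (V : ℝ) ≤ 2 * L ^ B := by
    have := Nat.ceil_lt_add_one (a := L ^ B) (by positivity)
    rw [← hVdef] at this
    linarith
  have hV1 : 1 ≤ V := by
    have : (1 : ℝ) ≤ V := hLB1.trans hVge
    exact_mod_cast this
  have hmain := TU_card z X C E V hV1
  have hVN : ((V : ℝ)) ^ N ≤ (X : ℝ) ^ (1 / 2 : ℝ) :=
    (pow_le_pow_left₀ (Nat.cast_nonneg V) hVle N).trans hX1
  -- logarithm of `V + 3`
  have hV3 : Real.log ((V : ℝ) + 3) ≤ (B + 2 : ℝ) * Real.log L := by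
    have e1 : (V : ℝ) + 3 ≤ L ^ (B + 2) := by
      rw [pow_add]
      have a1 : (5 : ℝ) ≤ L ^ 2 := by nlinarith
      have a2 : L ^ B * 5 ≤ L ^ B * L ^ 2 := mul_le_mul_of_nonneg_left a1 (by positivity)
      linarith
    have e2 : Real.log (L ^ (B + 2)) = (B + 2 : ℝ) * Real.log L := by
      rw [Real.log_pow]
      push_cast
      ring
    rw [← e2]
    exact Real.log_le_log (by positivity) e1
  have hlogV3 : 0 < Real.log ((V : ℝ) + 3) := Real.log_pos (by
    have : (0 : ℝ) ≤ V := Nat.cast_nonneg V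
    linarith)
  have hlogV : Real.log (V : ℝ) ≤ (B + 2 : ℝ) * Real.log L := by
    refine le_trans (Real.log_le_log ?_ ?_) hV3
    · exact_mod_cast hV1
    · linarith
  have hEx : Real.exp (C4 * (1 + Real.log (Real.log ((V : ℝ) + 3)))) ≤ L ^ (1 / 100 : ℝ) := by
    refine le_trans (Real.exp_le_exp.mpr ?_) hL1
    apply mul_le_mul_of_nonneg_left _ hC4
    have := Real.log_le_log hlogV3 hV3
    linarith
  -- one term
  have hterm : ∀ I : Finset S, I.Nonempty → ∀ u ∈ Fintype.piFinset (fun _ : S => Icc 1 V),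
      ((fib z X C E V I u).card : ℝ) ≤
        3 * |Cf I| * X * L ^ (-(23 / 100 : ℝ)) * ((∏ k, u k : ℕ) : ℝ)⁻¹ := by
    intro I hI u hu
    rw [Fintype.mem_piFinset] at hu
    have hub : ∀ k, 1 ≤ u k ∧ u k ≤ V := fun k => Finset.mem_Icc.1 (hu k)
    rcases Finset.eq_empty_or_nonempty (fib z X C E V I u) with hemp | hne
    · rw [hemp, Finset.card_empty]
      push_cast
      positivity
    refine le_trans (Nat.cast_le.2 (fib_le z X C E V I u fun k => (hub k).1)) ?_
    set U : ℕ := ∏ k, u k with hU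
    have hU1 : 1 ≤ U := by
      rw [hU]
      exact Nat.succ_le_of_lt (Finset.prod_pos fun k _ => Nat.lt_of_succ_le (hub k).1)
    have hU0 : (0 : ℝ) < U := by exact_mod_cast hU1
    have hUV : (U : ℝ) ≤ (V : ℝ) ^ N := by
      have : U ≤ V ^ N := by
        rw [hU, hN, ← Finset.card_univ, ← Finset.prod_const]
        exact Finset.prod_le_prod (fun _ _ => Nat.zero_le _) fun k _ => (hub k).2
      exact_mod_cast this
    set Y : ℕ := X / U with hY
    have hYle : (Y : ℝ) ≤ X / U := Nat.cast_div_le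
    have hYge : (X : ℝ) / U ≤ Y + 1 := by
      rw [div_le_iff₀ hU0]
      have e1 : X < (X / U + 1) * U := Nat.lt_mul_of_div_lt (Nat.lt_succ_self _) hU1
      have e2 : (X : ℝ) < ((X / U : ℕ) + 1) * U := by exact_mod_cast e1
      exact e2.le
    have hsq : (X : ℝ) ^ (1 / 2 : ℝ) ≤ X / U := by
      rw [le_div_iff₀ hU0]
      calc (X : ℝ) ^ (1 / 2 : ℝ) * U ≤ (X : ℝ) ^ (1 / 2 : ℝ) * (X : ℝ) ^ (1 / 2 : ℝ) := by
            apply mul_le_mul_of_nonneg_left (hUV.trans hVN) (Real.rpow_nonneg hXpos.le _)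
        _ = X := by
          rw [← Real.rpow_add hXpos]
          norm_num
    have hY3 : 3 ≤ Y := by
      have : (3 : ℝ) ≤ Y := by linarith
      exact_mod_cast this
    have hYX : (X : ℝ) ^ (1 / 3 : ℝ) ≤ Y := by linarith
    have hYpos : (0 : ℝ) < Y := by
      have : (3 : ℝ) ≤ Y := by exact_mod_cast hY3
      linarith
    have hYleX : (Y : ℝ) ≤ X := by
      refine hYle.trans (div_le_self hXpos.le ?_)
      exact_mod_cast hU1
    have hlogY1 : L / 3 ≤ Real.log Y := by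
      have e1 := Real.log_le_log (Real.rpow_pos_of_pos hXpos _) hYX
      rw [Real.log_rpow hXpos, ← hLdef] at e1
      linarith
    have hlogY2 : Real.log Y ≤ L := Real.log_le_log hYpos hYleX
    have hlogY0 : 1 ≤ Real.log Y := by linarith
    have hlogYp : 0 < Real.log Y := by linarith
    have hw0 : 0 ≤ 3 / 4 * Real.log (Real.log Y) + C4 * (1 + Real.log (Real.log ((V : ℝ) + 3))) := by
      have e1 : 0 ≤ Real.log (Real.log Y) := Real.log_nonneg hlogY0
      have e2 := ll_V V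
      have e3 : 0 ≤ C4 * (1 + Real.log (Real.log ((V : ℝ) + 3))) := mul_nonneg hC4 (by linarith)
      linarith
    have e1 : Real.log Y ^ Bf I ≤ (V : ℝ) := by
      calc Real.log Y ^ Bf I ≤ Real.log Y ^ B := pow_le_pow_right₀ hlogY0 (hBI I)
        _ ≤ L ^ B := pow_le_pow_left₀ hlogYp.le hlogY2 B
        _ ≤ V := hVge
    have e2 : (V : ℝ) ≤ Real.log Y ^ (B + 10) := by
      have a1 : (L / 3) ^ (B + 10) ≤ Real.log Y ^ (B + 10) :=
        pow_le_pow_left₀ (by positivity) hlogY1 _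
      refine le_trans (hVle.trans ?_) a1
      rw [div_pow, le_div_iff₀ (by positivity)]
      have a2 : L ^ (B + 10) = L ^ B * L ^ 10 := pow_add _ _ _
      have a3 : L ≤ L ^ 10 := by
        calc L = L ^ 1 := (pow_one L).symm
          _ ≤ L ^ 10 := pow_le_pow_right₀ (by linarith) (by norm_num)
      rw [a2]
      calc 2 * L ^ B * 3 ^ (B + 10) = L ^ B * (2 * 3 ^ (B + 10)) := by ring
        _ ≤ L ^ B * L ^ 10 := mul_le_mul_of_nonneg_left (hLbig.trans a3) (by positivity)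
    have hA := hCf I z Y V (fun _ : {k // k ∈ I} => 1) (Th C E I u)
      (3 / 4 * Real.log (Real.log Y) + C4 * (1 + Real.log (Real.log ((V : ℝ) + 3)))) hz hY3 e1 e2
      hw0 (fun k p hp h => by
        exfalso
        have h3 : p ∣ 1 := by exact_mod_cast h
        exact hp.one_lt.ne' (Nat.dvd_one.1 h3)) (Th_sub C E I u) (hPw X Y V I u hY3 hV1 hI hne)
    refine hA.trans ?_
    -- compute the right-hand side
    have f1 : Real.exp (3 / 4 * Real.log (Real.log Y) +
        C4 * (1 + Real.log (Real.log ((V : ℝ) + 3)))) =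
        Real.log Y ^ (3 / 4 : ℝ) * Real.exp (C4 * (1 + Real.log (Real.log ((V : ℝ) + 3)))) := by
      rw [Real.exp_add, Real.rpow_def_of_pos hlogYp, mul_comm (3 / 4 : ℝ)]
    have f2 : Real.log Y ^ (1 / 100 - 1 : ℝ) * Real.log Y ^ (3 / 4 : ℝ) =
        Real.log Y ^ (-(24 / 100) : ℝ) := by
      rw [← Real.rpow_add hlogYp]
      norm_num
    have f3 : Real.log Y ^ (-(24 / 100) : ℝ) ≤ 3 * L ^ (-(24 / 100) : ℝ) := by
      refine (Real.rpow_le_rpow_of_nonpos (by positivity : 0 < L / 3) hlogY1 (by norm_num)).trans ?_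
      rw [Real.div_rpow hL0.le (by norm_num), Real.rpow_neg (by norm_num : (0 : ℝ) ≤ 3), div_inv_eq_mul,
        mul_comm]
      apply mul_le_mul_of_nonneg_right _ (Real.rpow_nonneg hL0.le _)
      calc (3 : ℝ) ^ (24 / 100 : ℝ) ≤ 3 ^ (1 : ℝ) :=
            Real.rpow_le_rpow_of_exponent_le (by norm_num) (by norm_num)
        _ = 3 := Real.rpow_one 3
    have f4 : L ^ (-(24 / 100) : ℝ) * L ^ (1 / 100 : ℝ) = L ^ (-(23 / 100) : ℝ) := by
      rw [← Real.rpow_add hL0]
      norm_num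
    have g1 : Cf I * Y * Real.log Y ^ (1 / 100 - 1 : ℝ) *
        Real.exp (3 / 4 * Real.log (Real.log Y) + C4 * (1 + Real.log (Real.log ((V : ℝ) + 3)))) =
        Cf I * (Y * (Real.log Y ^ (-(24 / 100) : ℝ) *
          Real.exp (C4 * (1 + Real.log (Real.log ((V : ℝ) + 3)))))) := by
      rw [f1, ← f2]
      ring
    rw [g1]
    have g2 : Real.log Y ^ (-(24 / 100) : ℝ) *
          Real.exp (C4 * (1 + Real.log (Real.log ((V : ℝ) + 3)))) ≤ 3 * L ^ (-(23 / 100) : ℝ) := by
      calc _ ≤ (3 * L ^ (-(24 / 100) : ℝ)) * L ^ (1 / 100 : ℝ) :=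
            mul_le_mul f3 hEx (Real.exp_pos _).le (by positivity)
        _ = 3 * L ^ (-(23 / 100) : ℝ) := by rw [mul_assoc, f4]
    have g3 : 0 ≤ Y * (Real.log Y ^ (-(24 / 100) : ℝ) *
          Real.exp (C4 * (1 + Real.log (Real.log ((V : ℝ) + 3))))) := by positivity
    calc Cf I * (Y * (Real.log Y ^ (-(24 / 100) : ℝ) *
          Real.exp (C4 * (1 + Real.log (Real.log ((V : ℝ) + 3)))))) ≤
          |Cf I| * (Y * (Real.log Y ^ (-(24 / 100) : ℝ) *
          Real.exp (C4 * (1 + Real.log (Real.log ((V : ℝ) + 3)))))) :=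
          mul_le_mul_of_nonneg_right (le_abs_self _) g3
      _ ≤ |Cf I| * ((X / U) * (3 * L ^ (-(23 / 100) : ℝ))) := by
          apply mul_le_mul_of_nonneg_left _ (abs_nonneg _)
          exact mul_le_mul hYle g2 (by positivity) (by positivity)
      _ = 3 * |Cf I| * X * L ^ (-(23 / 100 : ℝ)) * ((U : ℕ) : ℝ)⁻¹ := by
          rw [div_eq_mul_inv]
          ring
  -- sum of the terms
  have hsumI : ∀ I : Finset S, I.Nonempty → (∑ u ∈ Fintype.piFinset (fun _ : S => Icc 1 V),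
      ((fib z X C E V I u).card : ℝ)) ≤ 3 * |Cf I| * (X * L ^ (-(1 / 5 : ℝ))) := by
    intro I hI
    calc _ ≤ ∑ u ∈ Fintype.piFinset (fun _ : S => Icc 1 V), 3 * |Cf I| * X * L ^ (-(23 / 100 : ℝ)) *
          ((∏ k, u k : ℕ) : ℝ)⁻¹ := Finset.sum_le_sum fun u hu => hterm I hI u hu
      _ = 3 * |Cf I| * X * L ^ (-(23 / 100 : ℝ)) *
          ∑ u ∈ Fintype.piFinset (fun _ : S => Icc 1 V), ((∏ k, u k : ℕ) : ℝ)⁻¹ := by
            rw [Finset.mul_sum]
      _ ≤ 3 * |Cf I| * X * L ^ (-(23 / 100 : ℝ)) * L ^ (1 / 100 : ℝ) := by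
          apply mul_le_mul_of_nonneg_left _ (by positivity)
          refine (u_sum V).trans ?_
          refine le_trans (pow_le_pow_left₀ ?_ (harm_le V _ L hlogV) _) hL2
          exact Finset.sum_nonneg fun n _ => by positivity
      _ = 3 * |Cf I| * (X * L ^ (-(22 / 100) : ℝ)) := by
          rw [mul_assoc (3 * |Cf I| * X), ← Real.rpow_add hL0]
          norm_num
          ring
      _ ≤ 3 * |Cf I| * (X * L ^ (-(1 / 5 : ℝ))) := by
          apply mul_le_mul_of_nonneg_left _ (by positivity)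
          apply mul_le_mul_of_nonneg_left _ hXpos.le
          exact Real.rpow_le_rpow_of_exponent_le (by linarith) (by norm_num)
  have hmainR : ((TU z X C E).card : ℝ) ≤ (V : ℝ) ^ N +
      ∑ I ∈ univ.filter (fun I : Finset S => I.Nonempty),
        ∑ u ∈ Fintype.piFinset (fun _ : S => Icc 1 V), ((fib z X C E V I u).card : ℝ) := by
    exact_mod_cast hmain
  refine hmainR.trans ?_
  have hlast : ∑ I ∈ univ.filter (fun I : Finset S => I.Nonempty),
      ∑ u ∈ Fintype.piFinset (fun _ : S => Icc 1 V), ((fib z X C E V I u).card : ℝ) ≤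
        (3 * ∑ I, |Cf I|) * (X * L ^ (-(1 / 5 : ℝ))) := by
    calc _ ≤ ∑ I ∈ univ.filter (fun I : Finset S => I.Nonempty),
          3 * |Cf I| * (X * L ^ (-(1 / 5 : ℝ))) :=
          Finset.sum_le_sum fun I hI => hsumI I (Finset.mem_filter.mp hI).2
      _ ≤ ∑ I : Finset S, 3 * |Cf I| * (X * L ^ (-(1 / 5 : ℝ))) :=
          Finset.sum_le_sum_of_subset_of_nonneg (Finset.filter_subset _ _)
            fun I _ _ => by positivity
      _ = (3 * ∑ I, |Cf I|) * (X * L ^ (-(1 / 5 : ℝ))) := by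
          rw [← Finset.sum_mul, ← Finset.mul_sum]
  have hfirst : (V : ℝ) ^ N ≤ X * L ^ (-(1 / 5 : ℝ)) := hVN.trans hX4
  calc _ ≤ X * L ^ (-(1 / 5 : ℝ)) + (3 * ∑ I, |Cf I|) * (X * L ^ (-(1 / 5 : ℝ))) :=
        add_le_add hfirst hlast
    _ = (1 + 3 * ∑ I, |Cf I|) * X * L ^ (-(1 / 5 : ℝ)) := by ring

end Pool.Agent.W2helper7.CC
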