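import Pool.Agent.W2helper7.CC.Red
import Pool.Agent.W2helper7.HT.Main2

/-!
# Twists of cyclic coverings: the number of the twists with a point of nonconstant type
-/

set_option autoImplicit false

namespace Pool.Agent.W2helper7.CC

open Finset Filter Polynomial Pool.Agent.W262.RK Pool.Agent.W262.TW
open Pool.Agent.W2helper7.HT (vv vv_mul vv_zero not_dvd_of_lt ev sq_mul_iff hom_ev all_of_ev
  sq_of_mul_sq sq_cancel)

variable {ι K : Type}

/-- all factors which are not linear forms of total ramification -/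
def qq (g : K → ℤ[X]) (h : ℤ[X]) : Option K → ℤ[X] := fun k => k.elim h g

/-- a rational point of `d w^N = c ∏ (x - a_i)^{e_i} ∏ g_k(x)^{r_k}` -/
def Pt [Fintype ι] [Fintype K] (a : ι → ℤ) (q : Option K → ℤ[X]) (c : ℚ) (N : ℕ) (e : ι → ℕ)
    (r : Option K → ℕ) (d : ℤ) (x w : ℚ) : Prop :=
  w ≠ 0 ∧ (d : ℚ) * w ^ N = c * ((∏ i, (x - a i) ^ e i) * ∏ k, (ev (q k) x) ^ r k)

/-- constant type at `a i` -/
def ConstF (a : ι → ℤ) (g : K → ℤ[X]) (i : ι) (x : ℚ) : Prop :=
  (∀ j, j ≠ i → IsSquare ((x - a j) * ((a i - a j : ℤ) : ℚ))) ∧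
  ∀ k, IsSquare (ev (g k) x * (((g k).eval (a i) : ℤ) : ℚ))

/-- constant type at infinity -/
def ConstI (a : ι → ℤ) (g : K → ℤ[X]) (x : ℚ) : Prop :=
  (∀ i j, IsSquare ((x - a i) * (x - a j))) ∧
  ∀ k i, IsSquare (((g k).leadingCoeff : ℚ) * ev (g k) x * (x - a i) ^ (g k).natDegree)

/-- a point of nonconstant type -/
def Bad [Fintype ι] [Fintype K] (a : ι → ℤ) (g : K → ℤ[X]) (h : ℤ[X]) (c : ℚ) (d : ℤ) : Prop :=
  ∃ (N : ℕ) (e : ι → ℕ) (r : Option K → ℕ), Exps N (qq g h) e r ∧ ∃ x w : ℚ,
    Pt a (qq g h) c N e r d x w ∧ (∀ i, ¬ ConstF a g i x) ∧ ¬ ConstI a g x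

/-- the hypotheses -/
structure Adm (a : ι → ℤ) (g : K → ℤ[X]) (h : ℤ[X]) : Prop where
  ha : Function.Injective a
  hq : ∀ k i, (qq g h k).eval (a i) ≠ 0
  hq0 : ∀ k, qq g h k ≠ 0
  hco : ∀ k l, k ≠ l → IsCoprime ((qq g h k).map (Int.castRingHom ℚ))
    ((qq g h l).map (Int.castRingHom ℚ))
  hodd : ∃ k, Odd (g k).natDegree
  gen1 : ∀ i l, i ≠ l → (∃ j, j ≠ i ∧ j ≠ l ∧ ¬ IsSquare ((a i - a j) * (a l - a j))) ∨
    ∃ k, ¬ IsSquare ((g k).eval (a i) * (g k).eval (a l))
  gen2 : ∀ i, (∃ k, Even (g k).natDegree ∧ ¬ IsSquare ((g k).eval (a i) * (g k).leadingCoeff)) ∨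
    (∃ k l, Odd (g k).natDegree ∧ Odd (g l).natDegree ∧
      ¬ IsSquare ((g k).eval (a i) * (g k).leadingCoeff * ((g l).eval (a i) * (g l).leadingCoeff))) ∨
    ∃ k j, Odd (g k).natDegree ∧ j ≠ i ∧
      ¬ IsSquare ((a i - a j) * ((g k).eval (a i) * (g k).leadingCoeff))

lemma sqc {a b c : ℤ} (hc : c ≠ 0) (h1 : IsSquare (a * c)) (h2 : IsSquare (b * c)) :
    IsSquare (a * b) := by
  apply sq_cancel hc
  have := h1.mul h2
  rwa [show a * c * (b * c) = a * b * c ^ 2 by ring] at this

variable [Fintype ι] [DecidableEq ι] [Fintype K] [DecidableEq K]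

omit [DecidableEq ι] [DecidableEq K] in
/-- integral coordinates -/
lemma integral (a : ι → ℤ) (q : Option K → ℤ[X]) (c : ℚ) (N : ℕ) (hN : 0 < N) (e : ι → ℕ)
    (r : Option K → ℕ) (d : ℤ) (hd : d ≠ 0) (x w : ℚ) (h : Pt a q c N e r d x w) :
    (∏ i, (Zs a x.num x.den (some i)) ^ e i) * ∏ k, (hom (q k) x.num x.den) ^ r k ≠ 0 ∧
    d * ((c.den : ℤ) * w.num) ^ N * (x.den : ℤ) ^ (∑ i, e i + ∑ k, r k * (q k).natDegree) =
      (c.num * (c.den : ℤ) ^ (N - 1)) * (w.den : ℤ) ^ N *
        ((∏ i, (Zs a x.num x.den (some i)) ^ e i) * ∏ k, (hom (q k) x.num x.den) ^ r k) := by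
  obtain ⟨hw, heq⟩ := h
  have hW : (x.den : ℚ) ≠ 0 := by exact_mod_cast x.den_nz
  have hB : (w.den : ℚ) ≠ 0 := by exact_mod_cast w.den_nz
  have hxd : (x.num : ℚ) / (x.den : ℚ) = x := Rat.num_div_den x
  have hwn : w * w.den = w.num := Rat.mul_den_eq_num w
  have hL : ∀ i, ((Zs a x.num x.den (some i) : ℤ) : ℚ) = x.den * (x - a i) := by
    intro i
    have h1 : (x.num : ℚ) = x * x.den := (Rat.mul_den_eq_num x).symm
    show ((x.num - a i * (x.den : ℤ) : ℤ) : ℚ) = x.den * (x - a i)
    push_cast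
    rw [h1]
    ring
  have hQ : ∀ k, ((hom (q k) x.num (x.den : ℤ) : ℤ) : ℚ) =
      (x.den : ℚ) ^ (q k).natDegree * ev (q k) x := by
    intro k
    have h2 := Pool.Agent.W975.TW.hom_map (Int.castRingHom ℚ) (q k) x.num (x.den : ℤ)
    rw [eq_intCast, eq_intCast, eq_intCast] at h2
    rw [h2]
    push_cast
    rw [hom_ev _ _ _ hW, hxd]
  have hprodQ : (((∏ i, (Zs a x.num x.den (some i)) ^ e i) *
      ∏ k, (hom (q k) x.num x.den) ^ r k : ℤ) : ℚ) =
      (x.den : ℚ) ^ (∑ i, e i + ∑ k, r k * (q k).natDegree) *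
        ((∏ i, (x - a i) ^ e i) * ∏ k, (ev (q k) x) ^ r k) := by
    have e1 : ((∏ i, (Zs a x.num x.den (some i)) ^ e i : ℤ) : ℚ) =
        (x.den : ℚ) ^ (∑ i, e i) * ∏ i, (x - a i) ^ e i := by
      rw [Int.cast_prod, ← Finset.prod_pow_eq_pow_sum, ← Finset.prod_mul_distrib]
      exact Finset.prod_congr rfl fun i _ => by rw [Int.cast_pow, hL i, mul_pow]
    have e2 : ((∏ k, (hom (q k) x.num x.den) ^ r k : ℤ) : ℚ) =
        (x.den : ℚ) ^ (∑ k, r k * (q k).natDegree) * ∏ k, (ev (q k) x) ^ r k := by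
      rw [Int.cast_prod, ← Finset.prod_pow_eq_pow_sum, ← Finset.prod_mul_distrib]
      exact Finset.prod_congr rfl fun k _ => by
        rw [Int.cast_pow, hQ k, mul_pow, ← pow_mul, mul_comm (r k)]
    rw [Int.cast_mul, e1, e2, pow_add]
    ring
  have hne : (∏ i, (x - a i) ^ e i) * ∏ k, (ev (q k) x) ^ r k ≠ (0 : ℚ) := by
    intro h0
    rw [h0, mul_zero] at heq
    exact mul_ne_zero (by exact_mod_cast hd) (pow_ne_zero _ hw) heq
  constructor
  · intro h0
    rw [h0, Int.cast_zero] at hprodQ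
    exact mul_ne_zero (pow_ne_zero _ hW) hne hprodQ.symm
  · have h1 : ((d * ((c.den : ℤ) * w.num) ^ N *
        (x.den : ℤ) ^ (∑ i, e i + ∑ k, r k * (q k).natDegree) : ℤ) : ℚ) =
        (((c.num * (c.den : ℤ) ^ (N - 1)) * (w.den : ℤ) ^ N *
        ((∏ i, (Zs a x.num x.den (some i)) ^ e i) * ∏ k, (hom (q k) x.num x.den) ^ r k) : ℤ) : ℚ) := by
      rw [Int.cast_mul ((c.num * (c.den : ℤ) ^ (N - 1)) * (w.den : ℤ) ^ N), hprodQ]
      push_cast
      obtain ⟨M, rfl⟩ : ∃ M, N = M + 1 := ⟨N - 1, by omega⟩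
      have hcn : c * c.den = c.num := Rat.mul_den_eq_num c
      rw [← hwn, ← hcn, Nat.add_sub_cancel]
      linear_combination ((w.den : ℚ) ^ (M + 1) * (c.den : ℚ) ^ (M + 1) *
        (x.den : ℚ) ^ (∑ i, e i + ∑ k, r k * (q k).natDegree)) * heq
    exact_mod_cast h1

omit [Fintype ι] [DecidableEq ι] [Fintype K] [DecidableEq K] in
/-- the forms at a rational number -/
lemma forms (a : ι → ℤ) (g : K → ℤ[X]) (x : ℚ) :
    (∀ i, ((Zs a x.num x.den (some i) : ℤ) : ℚ) = x.den * (x - a i)) ∧
    ∀ k, ((hom (g k) x.num (x.den : ℤ) : ℤ) : ℚ) = (x.den : ℚ) ^ (g k).natDegree * ev (g k) x := by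
  have hW : (x.den : ℚ) ≠ 0 := by exact_mod_cast x.den_nz
  have hxd : (x.num : ℚ) / (x.den : ℚ) = x := Rat.num_div_den x
  constructor
  · intro i
    have h1 : (x.num : ℚ) = x * x.den := (Rat.mul_den_eq_num x).symm
    show ((x.num - a i * (x.den : ℤ) : ℤ) : ℚ) = x.den * (x - a i)
    push_cast
    rw [h1]
    ring
  · intro k
    have h2 := Pool.Agent.W975.TW.hom_map (Int.castRingHom ℚ) (g k) x.num (x.den : ℤ)
    rw [eq_intCast, eq_intCast, eq_intCast] at h2
    rw [h2]
    push_cast
    rw [hom_ev _ _ _ hW, hxd]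

lemma castsq {a : ℤ} (h : IsSquare a) : IsSquare (a : ℚ) := by
  rw [Rat.isSquare_intCast_iff]; exact h

omit [Fintype ι] [DecidableEq ι] [Fintype K] [DecidableEq K] in
/-- constant type at `a i` from the symbols -/
lemma constF_of (a : ι → ℤ) (g : K → ℤ[X]) (x : ℚ) (i : ι) (β : ℤ) (hβ : β ≠ 0)
    (h1 : IsSquare ((x.den : ℤ) * β))
    (h2 : ∀ j, j ≠ i → IsSquare (Zs a x.num x.den (some j) * (a i - a j) * β))
    (h3 : ∀ k, IsSquare (if Even (g k).natDegree then hom (g k) x.num x.den * (g k).eval (a i)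
      else hom (g k) x.num x.den * (g k).eval (a i) * β)) : ConstF a g i x := by
  have hW : (x.den : ℚ) ≠ 0 := by exact_mod_cast x.den_nz
  obtain ⟨f1, f2⟩ := forms a g x
  constructor
  · intro j hj
    have h4 := castsq (sqc hβ h1 (h2 j hj))
    push_cast at h4
    rw [f1 j] at h4
    rw [← sq_mul_iff hW]
    push_cast
    rwa [show (x - (a j : ℚ)) * ((a i : ℚ) - a j) * (x.den : ℚ) ^ 2 =
      x.den * (x.den * (x - a j) * (a i - a j)) by ring]
  · intro k
    have h4 := h3 k
    split_ifs at h4 with hev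
    · obtain ⟨n, hn⟩ := hev
      have h5 := castsq h4
      push_cast at h5
      rw [f2 k, hn] at h5
      rw [← sq_mul_iff (pow_ne_zero n hW)]
      rwa [show ev (g k) x * (((g k).eval (a i) : ℤ) : ℚ) * ((x.den : ℚ) ^ n) ^ 2 =
        (x.den : ℚ) ^ (n + n) * ev (g k) x * (((g k).eval (a i) : ℤ) : ℚ) by ring]
    · rw [Nat.not_even_iff_odd] at hev
      obtain ⟨n, hn⟩ := hev
      have h5 := castsq (sqc hβ h4 h1)
      push_cast at h5
      rw [f2 k, hn] at h5
      rw [← sq_mul_iff (pow_ne_zero (n + 1) hW)]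
      rwa [show ev (g k) x * (((g k).eval (a i) : ℤ) : ℚ) * ((x.den : ℚ) ^ (n + 1)) ^ 2 =
        (x.den : ℚ) ^ (2 * n + 1) * ev (g k) x * (((g k).eval (a i) : ℤ) : ℚ) * (x.den : ℚ) by ring]

omit [Fintype ι] [DecidableEq ι] [Fintype K] [DecidableEq K] in
/-- constant type at infinity from the symbols -/
lemma constI_of (a : ι → ℤ) (g : K → ℤ[X]) (x : ℚ) (β : ℤ) (hβ : β ≠ 0)
    (h2 : ∀ j, IsSquare (Zs a x.num x.den (some j) * β))
    (h3 : ∀ k, IsSquare (if Even (g k).natDegree then hom (g k) x.num x.den * (g k).leadingCoeff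
      else hom (g k) x.num x.den * (g k).leadingCoeff * β)) : ConstI a g x := by
  have hW : (x.den : ℚ) ≠ 0 := by exact_mod_cast x.den_nz
  obtain ⟨f1, f2⟩ := forms a g x
  constructor
  · intro i j
    have h4 := castsq (sqc hβ (h2 i) (h2 j))
    push_cast at h4
    rw [f1 i, f1 j] at h4
    rw [← sq_mul_iff hW]
    rwa [show (x - (a i : ℚ)) * (x - a j) * (x.den : ℚ) ^ 2 =
      x.den * (x - a i) * (x.den * (x - a j)) by ring]
  · intro k i
    have h4 := h3 k
    rw [← sq_mul_iff (pow_ne_zero (g k).natDegree hW)]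
    split_ifs at h4 with hev
    · obtain ⟨n, hn⟩ := hev
      have h5 := castsq h4
      push_cast at h5
      rw [f2 k, hn] at h5
      obtain ⟨b, hb⟩ := h5
      rw [hn]
      refine ⟨b * ((x.den : ℚ) ^ n * (x - a i) ^ n), ?_⟩
      linear_combination ((x.den : ℚ) ^ (2 * n) * (x - a i) ^ (2 * n)) * hb
    · rw [Nat.not_even_iff_odd] at hev
      obtain ⟨n, hn⟩ := hev
      have h5 := castsq (sqc hβ h4 (h2 i))
      push_cast at h5
      rw [f1 i, f2 k, hn] at h5
      obtain ⟨b, hb⟩ := h5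
      rw [hn]
      refine ⟨b * ((x.den : ℚ) ^ n * (x - a i) ^ n), ?_⟩
      linear_combination ((x.den : ℚ) ^ (2 * n) * (x - a i) ^ (2 * n)) * hb

theorem mainA (a : ι → ℤ) (g : K → ℤ[X]) (h : ℤ[X]) (hA : Adm a g h) (c : ℚ) (hc : c ≠ 0) :
    ∃ C : ℝ, 0 ≤ C ∧ ∀ X : ℕ, 3 ≤ X →
    ({d : ℤ | d.natAbs ≤ X ∧ (Squarefree d ∧ Bad a g h c d)}.ncard : ℝ) ≤
      C * X * (Real.log X) ^ (-(1 / 5 : ℝ)) := by
  classical
  obtain ⟨ha, hq, hq0, hco, ⟨k0, hk0⟩, gen1, gen2⟩ := hA
  obtain ⟨z0, hz0, hu0⟩ := uniq a ha (qq g h) hq hq0 hco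
  obtain ⟨z, hz⟩ : ∃ z : ℕ, z = max 2 z0 + (c.num.natAbs + c.den) := ⟨_, rfl⟩
  have hz2 : 2 ≤ z := by omega
  have hgk : ∀ k i, (g k).eval (a i) ≠ 0 := fun k i => hq (some k) i
  have hlk : ∀ k, (g k).leadingCoeff ≠ 0 := fun k => leadingCoeff_ne_zero.2 (hq0 (some k))
  have hE0 : ∀ t ∈ EE z, t ≠ 0 := fun t ht => (Pool.Agent.W554.TW.EE_abs ht).2
  -- the number of the tuples
  have hcount : ∀ (cc : Option ι → ℤ) (b : K → ℤ), (∀ s, cc s ≠ 0) → (∀ k, b k ≠ 0) →
      ∃ C : ℝ, 0 ≤ C ∧ ∀ᶠ X : ℕ in atTop,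
        ((TU z X (CO a g k0 cc b) (EO a g k0 b)).card : ℝ) ≤
          C * X * (Real.log X) ^ (-(1 / 5 : ℝ)) := by
    intro cc b hcc hb
    obtain ⟨P, hP⟩ : ∃ P : ℝ, P = ∑ s, ∑ t, ((CO a g k0 cc b s t).natAbs : ℝ) +
      ∑ s, ∑ k, ((EO a g k0 b s k).natAbs : ℝ) := ⟨_, rfl⟩
    have hP0 : 0 ≤ P := by rw [hP]; positivity
    refine key (CO a g k0 cc b) (EO a g k0 b) z hz2 P hP0 ?_ ?_ ?_
    · intro s t
      have h1 : ((CO a g k0 cc b s t).natAbs : ℝ) ≤ ∑ t, ((CO a g k0 cc b s t).natAbs : ℝ) :=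
        Finset.single_le_sum (f := fun t => ((CO a g k0 cc b s t).natAbs : ℝ))
          (fun _ _ => by positivity) (mem_univ t)
      have h2 : ∑ t, ((CO a g k0 cc b s t).natAbs : ℝ) ≤ ∑ s, ∑ t, ((CO a g k0 cc b s t).natAbs : ℝ) :=
        Finset.single_le_sum (f := fun s => ∑ t, ((CO a g k0 cc b s t).natAbs : ℝ))
          (fun _ _ => by positivity) (mem_univ s)
      have h3 : 0 ≤ ∑ s, ∑ k, ((EO a g k0 b s k).natAbs : ℝ) := by positivity
      rw [hP]; linarith
    · intro s k
      have h1 : ((EO a g k0 b s k).natAbs : ℝ) ≤ ∑ k, ((EO a g k0 b s k).natAbs : ℝ) :=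
        Finset.single_le_sum (f := fun k => ((EO a g k0 b s k).natAbs : ℝ))
          (fun _ _ => by positivity) (mem_univ k)
      have h2 : ∑ k, ((EO a g k0 b s k).natAbs : ℝ) ≤ ∑ s, ∑ k, ((EO a g k0 b s k).natAbs : ℝ) :=
        Finset.single_le_sum (f := fun s => ∑ k, ((EO a g k0 b s k).natAbs : ℝ))
          (fun _ _ => by positivity) (mem_univ s)
      have h3 : 0 ≤ ∑ s, ∑ t, ((CO a g k0 cc b s t).natAbs : ℝ) := by positivity
      rw [hP]; linarith
    · -- the square classes
      have hcasei : ∀ i : ι, (∃ j, j ≠ some i ∧ j ≠ none ∧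
          ¬ IsSquare (CO a g k0 cc b (some i) j * CO a g k0 cc b none j)) ∨
          ∃ k, ¬ IsSquare (EO a g k0 b (some i) k * EO a g k0 b none k) := by
        intro i
        by_contra hcon
        push Not at hcon
        obtain ⟨hc1, hc2⟩ := hcon
        obtain ⟨τ, hτ⟩ : ∃ τ : K → ℤ, τ = fun k => (g k).eval (a i) * (g k).leadingCoeff := ⟨_, rfl⟩
        have hτk : ∀ k, (g k).eval (a i) * (g k).leadingCoeff = τ k := fun k => by rw [hτ]
        have hτ0 : ∀ k, τ k ≠ 0 := fun k => by
          rw [hτ]; exact mul_ne_zero (hgk k i) (hlk k)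
        have d1 : ∀ j, j ≠ i → IsSquare ((a i - a j) * τ k0) := by
          intro j hj
          have h1 := hc1 (some j) (by simpa using hj) (by simp)
          apply sq_cancel (t := cc (some j) * b k0) (mul_ne_zero (hcc _) (hb _))
          rw [← hτk]
          have h2 : CO a g k0 cc b (some i) (some j) * CO a g k0 cc b none (some j) =
              (a i - a j) * ((g k0).eval (a i) * (g k0).leadingCoeff) * (cc (some j) * b k0) ^ 2 := by
            show cc (some j) * (a i - a j) * (b k0 * (g k0).eval (a i)) *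
              (cc (some j) * (b k0 * (g k0).leadingCoeff)) = _
            ring
          rwa [h2] at h1
        have d2 : ∀ k, Even (g k).natDegree → IsSquare (τ k) := by
          intro k hk
          have h1 := hc2 k
          apply sq_cancel (t := b k) (hb _)
          rw [← hτk]
          have h2 : EO a g k0 b (some i) k * EO a g k0 b none k =
              (g k).eval (a i) * (g k).leadingCoeff * (b k) ^ 2 := by
            show (if Even (g k).natDegree then b k * (g k).eval (a i)
              else b k * (g k).eval (a i) * (b k0 * (g k0).eval (a i))) *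
              (if Even (g k).natDegree then b k * (g k).leadingCoeff
              else b k * (g k).leadingCoeff * (b k0 * (g k0).leadingCoeff)) = _
            rw [if_pos hk, if_pos hk]
            ring
          rwa [h2] at h1
        have d3 : ∀ k, Odd (g k).natDegree → IsSquare (τ k * τ k0) := by
          intro k hk
          have h1 := hc2 k
          apply sq_cancel (t := b k * b k0) (mul_ne_zero (hb _) (hb _))
          rw [← hτk, ← hτk]
          have h2 : EO a g k0 b (some i) k * EO a g k0 b none k =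
              (g k).eval (a i) * (g k).leadingCoeff * ((g k0).eval (a i) * (g k0).leadingCoeff) *
                (b k * b k0) ^ 2 := by
            show (if Even (g k).natDegree then b k * (g k).eval (a i)
              else b k * (g k).eval (a i) * (b k0 * (g k0).eval (a i))) *
              (if Even (g k).natDegree then b k * (g k).leadingCoeff
              else b k * (g k).leadingCoeff * (b k0 * (g k0).leadingCoeff)) = _
            rw [if_neg (Nat.not_even_iff_odd.2 hk), if_neg (Nat.not_even_iff_odd.2 hk)]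
            ring
          rwa [h2] at h1
        rcases gen2 i with ⟨k, hk, hns⟩ | ⟨k, l, hk, hl, hns⟩ | ⟨k, j, hk, hj, hns⟩
        · rw [hτk] at hns
          exact hns (d2 k hk)
        · rw [hτk, hτk] at hns
          exact hns (sqc (hτ0 k0) (d3 k hk) (d3 l hl))
        · rw [hτk] at hns
          exact hns (sqc (hτ0 k0) (d1 j hj) (d3 k hk))
      intro s t hst
      rcases s with _ | i <;> rcases t with _ | l
      · exact absurd rfl hst
      · rcases hcasei l with ⟨j, h1, h2, h3⟩ | ⟨k, hk⟩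
        · left
          refine ⟨j, h2, h1, ?_⟩
          rwa [mul_comm]
        · right
          exact ⟨k, by rwa [mul_comm]⟩
      · exact hcasei i
      · have hil : i ≠ l := fun h1 => hst (by rw [h1])
        by_contra hcon
        push Not at hcon
        obtain ⟨hc1, hc2⟩ := hcon
        have d0 : IsSquare ((g k0).eval (a i) * (g k0).eval (a l)) := by
          have h1 := hc1 none (by simp) (by simp)
          apply sq_cancel (t := cc none * b k0) (mul_ne_zero (hcc _) (hb _))
          have h2 : CO a g k0 cc b (some i) none * CO a g k0 cc b (some l) none =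
              (g k0).eval (a i) * (g k0).eval (a l) * (cc none * b k0) ^ 2 := by
            show cc none * (b k0 * (g k0).eval (a i)) * (cc none * (b k0 * (g k0).eval (a l))) = _
            ring
          rwa [h2] at h1
        have hcan : ∀ u : ℤ, IsSquare (u * ((g k0).eval (a i) * (g k0).eval (a l))) → IsSquare u := by
          intro u hu
          have h1 := sqc (c := (g k0).eval (a i) * (g k0).eval (a l)) (b := 1)
            (mul_ne_zero (hgk k0 i) (hgk k0 l)) hu (by rwa [one_mul])
          rwa [mul_one] at h1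
        rcases gen1 i l hil with ⟨j, hji, hjl, hns⟩ | ⟨k, hns⟩
        · apply hns
          have h1 := hc1 (some j) (by simpa using hji) (by simpa using hjl)
          apply hcan
          apply sq_cancel (t := cc (some j) * b k0) (mul_ne_zero (hcc _) (hb _))
          have h2 : CO a g k0 cc b (some i) (some j) * CO a g k0 cc b (some l) (some j) =
              (a i - a j) * (a l - a j) * ((g k0).eval (a i) * (g k0).eval (a l)) *
                (cc (some j) * b k0) ^ 2 := by
            show cc (some j) * (a i - a j) * (b k0 * (g k0).eval (a i)) *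
              (cc (some j) * (a l - a j) * (b k0 * (g k0).eval (a l))) = _
            ring
          rwa [h2] at h1
        · apply hns
          have h1 := hc2 k
          by_cases hk : Even (g k).natDegree
          · apply sq_cancel (t := b k) (hb _)
            have h2 : EO a g k0 b (some i) k * EO a g k0 b (some l) k =
                (g k).eval (a i) * (g k).eval (a l) * (b k) ^ 2 := by
              show (if Even (g k).natDegree then b k * (g k).eval (a i)
                else b k * (g k).eval (a i) * (b k0 * (g k0).eval (a i))) *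
                (if Even (g k).natDegree then b k * (g k).eval (a l)
                else b k * (g k).eval (a l) * (b k0 * (g k0).eval (a l))) = _
              rw [if_pos hk, if_pos hk]
              ring
            rwa [h2] at h1
          · apply hcan
            apply sq_cancel (t := b k * b k0) (mul_ne_zero (hb _) (hb _))
            have h2 : EO a g k0 b (some i) k * EO a g k0 b (some l) k =
                (g k).eval (a i) * (g k).eval (a l) * ((g k0).eval (a i) * (g k0).eval (a l)) *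
                  (b k * b k0) ^ 2 := by
              show (if Even (g k).natDegree then b k * (g k).eval (a i)
                else b k * (g k).eval (a i) * (b k0 * (g k0).eval (a i))) *
                (if Even (g k).natDegree then b k * (g k).eval (a l)
                else b k * (g k).eval (a l) * (b k0 * (g k0).eval (a l))) = _
              rw [if_neg hk, if_neg hk]
              ring
            rwa [h2] at h1
  obtain ⟨IX, hIX⟩ : ∃ IX : Finset (ℤ × (Option ι → ℤ) × (K → ℤ)), IX =
    (EE z) ×ˢ ((Fintype.piFinset (fun _ : Option ι => EE z)) ×ˢ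
      (Fintype.piFinset (fun _ : K => EE z))) := ⟨_, rfl⟩
  have hmemIX : ∀ q : ℤ × (Option ι → ℤ) × (K → ℤ), q ∈ IX ↔ q.1 ∈ EE z ∧ (∀ s, q.2.1 s ∈ EE z) ∧
      ∀ k, q.2.2 k ∈ EE z := by
    intro q
    rw [hIX, Finset.mem_product, Finset.mem_product, Fintype.mem_piFinset, Fintype.mem_piFinset]
  have hkey : ∀ q : ℤ × (Option ι → ℤ) × (K → ℤ), ∃ C : ℝ, 0 ≤ C ∧
      (q ∈ IX → ∀ᶠ X : ℕ in atTop,
        ((TU z X (CO a g k0 q.2.1 q.2.2) (EO a g k0 q.2.2)).card : ℝ) ≤
          C * X * (Real.log X) ^ (-(1 / 5 : ℝ))) := by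
    intro q
    by_cases hq : q ∈ IX
    · have hq' := (hmemIX q).1 hq
      obtain ⟨C, hC, H⟩ := hcount q.2.1 q.2.2 (fun s => hE0 _ (hq'.2.1 s)) (fun k => hE0 _ (hq'.2.2 k))
      exact ⟨C, hC, fun _ => H⟩
    · exact ⟨0, le_rfl, fun h => absurd h hq⟩
  choose Cq hCq0 hCq using hkey
  refine all_of_ev (fun d => Squarefree d ∧ Bad a g h c d) (∑ q ∈ IX, Cq q)
    (Finset.sum_nonneg fun q _ => hCq0 q) ?_
  have hall : ∀ᶠ X : ℕ in atTop, ∀ q ∈ IX,
      ((TU z X (CO a g k0 q.2.1 q.2.2) (EO a g k0 q.2.2)).card : ℝ) ≤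
        Cq q * X * (Real.log X) ^ (-(1 / 5 : ℝ)) := by
    rw [Filter.eventually_all_finset]
    exact fun q hq => hCq q hq
  filter_upwards [hall] with X hX
  have hsub : {d : ℤ | d.natAbs ≤ X ∧ (Squarefree d ∧ Bad a g h c d)} ⊆
      ((IX.biUnion (fun q => (TU z X (CO a g k0 q.2.1 q.2.2) (EO a g k0 q.2.2)).image
        (fun P => q.1 * ∏ s, (P s : ℤ))) : Finset ℤ) : Set ℤ) := by
    rintro d ⟨hdX, hd, N, e, r, hExp, x, w, hPt, hnF, hnI⟩
    have hUW : IsCoprime x.num (x.den : ℤ) := by
      rw [Int.isCoprime_iff_gcd_eq_one]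
      exact x.reduced
    have hW0 : (x.den : ℤ) ≠ 0 := by exact_mod_cast x.den_nz
    obtain ⟨hN, hN2, he, hr, hr2, hEt⟩ := hExp
    obtain ⟨hne, heq⟩ := integral a (qq g h) c N hN e r d hd.ne_zero x w hPt
    have hN1 : N ≠ 1 := by rintro rfl; exact absurd hN2 (by decide)
    have he0 : ∀ i, e i ≠ 0 := by
      intro i h1
      have h2 := he i
      rw [h1, Nat.coprime_zero_left] at h2
      exact hN1 h2
    have hr0 : ∀ k : K, r (some k) ≠ 0 := by
      intro k h1
      have h2 := hr2 k
      rw [h1, Nat.gcd_zero_left, Nat.div_self hN] at h2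
      exact absurd h2 (by decide)
    have hZ0 : ∀ s, Zs a x.num x.den s ≠ 0 := by
      intro s
      rcases s with _ | i
      · exact hW0
      · intro h1
        apply hne
        rw [Finset.prod_eq_zero (mem_univ i) (by rw [h1, zero_pow (he0 i)]), zero_mul]
    have hg0 : ∀ k, hom (g k) x.num (x.den : ℤ) ≠ 0 := by
      intro k h1
      apply hne
      rw [Finset.prod_eq_zero (mem_univ (some k)) (by
        show (hom (g k) x.num (x.den : ℤ)) ^ r (some k) = 0
        rw [h1, zero_pow (hr0 k)]), mul_zero]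
    have hw0 : w ≠ 0 := hPt.1
    have hpar : Par a g z d x.num x.den := by
      intro p hp hzp
      refine parity (q := qq g h) (e := e) (r := r) (N := N) (c := c.num * (c.den : ℤ) ^ (N - 1))
        (A := (c.den : ℤ) * w.num) (B := w.den)
        ⟨hN, hN2, he, hr, hr2, hEt⟩ hp hd (hu0 p hp (by omega) _ _ hUW) ?_ ?_ ?_ ⟨hW0, hne⟩ heq
      · intro h1
        have hpI : Prime (p : ℤ) := Nat.prime_iff_prime_int.1 hp
        rcases hpI.dvd_or_dvd h1 with h2 | h2
        · exact not_dvd_of_lt (Rat.num_ne_zero.2 hc) (by omega) h2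
        · exact not_dvd_of_lt (show (c.den : ℤ) ≠ 0 by exact_mod_cast c.den_nz) (by omega)
            (hpI.dvd_of_dvd_pow h2)
      · exact mul_ne_zero (by exact_mod_cast c.den_nz) (Rat.num_ne_zero.2 hw0)
      · exact_mod_cast w.den_nz
    obtain ⟨κ, hκ, cc, hcc, b, hb, P, hPrg, hPcop, hdd, hPJ, ⟨T, hT, hZT⟩, T', hT', hGT⟩ :=
      red a g k0 hk0 h z (fun p hp => hz0 p (by omega)) hd hUW
        (fun p hp hzp => hu0 p hp (by omega) _ _ hUW) hZ0 hg0 hpar
    have hP0 : ∀ s, P s ≠ 0 := fun s => (hPrg s).1.ne_zero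
    have hprodX : ∏ s, P s ≤ X := by
      refine le_trans ?_ hdX
      rw [hdd, Int.natAbs_mul]
      have h1 : (∏ s, (P s : ℤ)).natAbs = ∏ s, P s := by
        rw [← Nat.cast_prod, Int.natAbs_natCast]
      rw [h1]
      exact Nat.le_mul_of_pos_left _ (Int.natAbs_pos.mpr (hE0 κ hκ))
    rw [Finset.coe_biUnion, Set.mem_iUnion₂]
    refine ⟨(κ, cc, b), (hmemIX _).2 ⟨hκ, hcc, hb⟩, ?_⟩
    rw [Finset.mem_coe, Finset.mem_image]
    refine ⟨P, ?_, hdd.symm⟩
    rw [mem_TU]
    refine ⟨fun s => Finset.mem_Icc.2 ⟨Nat.one_le_iff_ne_zero.2 (hP0 s), ?_⟩, hPrg, hPcop, hprodX,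
      hPJ, ?_⟩
    · refine le_trans ?_ hprodX
      exact Finset.single_le_prod' (f := P) (fun t _ => Nat.one_le_iff_ne_zero.2 (hP0 t)) (mem_univ s)
    · -- nonconstant type
      intro s
      by_contra hcon
      push Not at hcon
      obtain ⟨hc1, hc2⟩ := hcon
      rcases s with _ | i
      · apply hnI
        refine constI_of a g x (b k0 * (g k0).leadingCoeff)
          (mul_ne_zero (hE0 _ (hb k0)) (hlk k0)) ?_ ?_
        · intro j
          have h1 := hc1 (some j) (by simp)
          have h2 := sq_of_mul_sq (t := T (some j)) h1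
          rw [hZT (some j)]
          have h3 : CO a g k0 cc b none (some j) * (P (some j) : ℤ) * T (some j) ^ 2 =
              cc (some j) * P (some j) * T (some j) ^ 2 * (b k0 * (g k0).leadingCoeff) := by
            show cc (some j) * (b k0 * (g k0).leadingCoeff) * (P (some j) : ℤ) * T (some j) ^ 2 = _
            ring
          rwa [h3] at h2
        · intro k
          have h1 := hc2 k
          have h2 := sq_of_mul_sq (t := T' k) h1
          have h3 : EO a g k0 b none k = if Even (g k).natDegree then b k * (g k).leadingCoeff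
            else b k * (g k).leadingCoeff * (b k0 * (g k0).leadingCoeff) := rfl
          rw [h3] at h2
          rw [hGT k]
          split_ifs at h2 ⊢ with hev
          · rwa [show b k * (g k).leadingCoeff * T' k ^ 2 = b k * T' k ^ 2 * (g k).leadingCoeff by
              ring] at h2
          · rwa [show b k * (g k).leadingCoeff * (b k0 * (g k0).leadingCoeff) * T' k ^ 2 =
              b k * T' k ^ 2 * (g k).leadingCoeff * (b k0 * (g k0).leadingCoeff) by ring] at h2
      · apply hnF i
        refine constF_of a g x i (b k0 * (g k0).eval (a i))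
          (mul_ne_zero (hE0 _ (hb k0)) (hgk k0 i)) ?_ ?_ ?_
        · have h1 := hc1 none (by simp)
          have h2 := sq_of_mul_sq (t := T none) h1
          have h4 : (x.den : ℤ) = cc none * P none * T none ^ 2 := hZT none
          rw [h4]
          have h3 : CO a g k0 cc b (some i) none * (P none : ℤ) * T none ^ 2 =
              cc none * P none * T none ^ 2 * (b k0 * (g k0).eval (a i)) := by
            show cc none * (b k0 * (g k0).eval (a i)) * (P none : ℤ) * T none ^ 2 = _
            ring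
          rwa [h3] at h2
        · intro j hj
          have h1 := hc1 (some j) (by simpa using hj)
          have h2 := sq_of_mul_sq (t := T (some j)) h1
          rw [hZT (some j)]
          have h3 : CO a g k0 cc b (some i) (some j) * (P (some j) : ℤ) * T (some j) ^ 2 =
              cc (some j) * P (some j) * T (some j) ^ 2 * (a i - a j) *
                (b k0 * (g k0).eval (a i)) := by
            show cc (some j) * (a i - a j) * (b k0 * (g k0).eval (a i)) * (P (some j) : ℤ) *
              T (some j) ^ 2 = _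
            ring
          rwa [h3] at h2
        · intro k
          have h1 := hc2 k
          have h2 := sq_of_mul_sq (t := T' k) h1
          have h3 : EO a g k0 b (some i) k = if Even (g k).natDegree then b k * (g k).eval (a i)
            else b k * (g k).eval (a i) * (b k0 * (g k0).eval (a i)) := rfl
          rw [h3] at h2
          rw [hGT k]
          split_ifs at h2 ⊢ with hev
          · rwa [show b k * (g k).eval (a i) * T' k ^ 2 = b k * T' k ^ 2 * (g k).eval (a i) by
              ring] at h2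
          · rwa [show b k * (g k).eval (a i) * (b k0 * (g k0).eval (a i)) * T' k ^ 2 =
              b k * T' k ^ 2 * (g k).eval (a i) * (b k0 * (g k0).eval (a i)) by ring] at h2
  have hcard := Set.ncard_le_ncard hsub (Finset.finite_toSet _)
  rw [Set.ncard_coe_finset] at hcard
  have hcard2 := hcard.trans (Finset.card_biUnion_le.trans
    (Finset.sum_le_sum fun q _ => Finset.card_image_le))
  calc ({d : ℤ | d.natAbs ≤ X ∧ (Squarefree d ∧ Bad a g h c d)}.ncard : ℝ)
      ≤ ∑ q ∈ IX, ((TU z X (CO a g k0 q.2.1 q.2.2) (EO a g k0 q.2.2)).card : ℝ) := by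
        exact_mod_cast hcard2
    _ ≤ ∑ q ∈ IX, Cq q * X * (Real.log X) ^ (-(1 / 5 : ℝ)) := Finset.sum_le_sum hX
    _ = _ := by rw [← Finset.sum_mul, ← Finset.sum_mul]

end Pool.Agent.W2helper7.CC
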