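import Pool.Agent.W2helper7.HT.Red

/-!
# Twists of cyclic coverings: the valuations
-/

set_option autoImplicit false

namespace Pool.Agent.W2helper7.CC

open Finset Polynomial Pool.Agent.W262.RK Pool.Agent.W262.TW
open Pool.Agent.W975.TW (hom_map hom_smul hom_one hom_lc clear)
open Pool.Agent.W2helper7.HT

/-- the form at a zero of `U - a W` -/
lemma hom_at {f : ℤ[X]} {a U W : ℤ} {p : ℕ} (h : (p : ℤ) ∣ U - a * W) :
    ((hom f U W : ℤ) : ZMod p) = ((f.eval a * W ^ f.natDegree : ℤ) : ZMod p) := by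
  have h1 : (U : ZMod p) = (W : ZMod p) * (a : ZMod p) := by
    rw [pdvd_iff] at h
    push_cast at h
    linear_combination h
  have h2 := hom_map (Int.castRingHom (ZMod p)) f U W
  rw [eq_intCast, eq_intCast, eq_intCast, h1] at h2
  have h3 := hom_smul f (W : ZMod p) (a : ZMod p) 1
  rw [mul_one, hom_one] at h3
  rw [h2, h3]
  have h4 : eval₂ (Int.castRingHom (ZMod p)) (a : ZMod p) f = ((f.eval a : ℤ) : ZMod p) := by
    have := eval₂_at_apply (p := f) (Int.castRingHom (ZMod p)) a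
    rw [eq_intCast] at this
    rw [this, eq_intCast]
  rw [h4]
  push_cast
  ring

/-- the form at infinity -/
lemma hom_infty {f : ℤ[X]} {U W : ℤ} {p : ℕ} (h : (p : ℤ) ∣ W) :
    ((hom f U W : ℤ) : ZMod p) = ((f.leadingCoeff * U ^ f.natDegree : ℤ) : ZMod p) := by
  rw [pdvd_iff] at h
  have h2 := hom_map (Int.castRingHom (ZMod p)) f U W
  rw [eq_intCast, eq_intCast, eq_intCast, h, hom_inf] at h2
  rw [h2]
  push_cast
  ring

/-- no common zeros -/
lemma hom_cop {f g : ℤ[X]} {U W : ℤ} {p : ℕ} (hp : p.Prime) (hW : ¬ (p : ℤ) ∣ W) {R : ℤ}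
    {A B : ℤ[X]} (hR : ¬ (p : ℤ) ∣ R) (hAB : A * f + B * g = C R) (h1 : (p : ℤ) ∣ hom f U W)
    (h2 : (p : ℤ) ∣ hom g U W) : False := by
  have : Fact p.Prime := ⟨hp⟩
  have hv : (W : ZMod p) ≠ 0 := by
    rw [Ne, ← pdvd_iff]
    exact hW
  have key : ∀ h : ℤ[X], (p : ℤ) ∣ hom h U W →
      h.eval₂ (Int.castRingHom (ZMod p)) ((U : ZMod p) / (W : ZMod p)) = 0 := by
    intro h hh
    rw [pdvd_iff] at hh
    have h3 := hom_map (Int.castRingHom (ZMod p)) h U W
    rw [eq_intCast, hh, eq_intCast, eq_intCast] at h3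
    have h4 := hom_smul h (W : ZMod p) ((U : ZMod p) / (W : ZMod p)) 1
    rw [mul_div_cancel₀ _ hv, mul_one, ← h3, hom_one] at h4
    exact (mul_eq_zero.1 h4.symm).resolve_left (pow_ne_zero _ hv)
  have h5 := congrArg (eval₂ (Int.castRingHom (ZMod p)) ((U : ZMod p) / (W : ZMod p))) hAB
  rw [eval₂_add, eval₂_mul, eval₂_mul, key f h1, key g h2, mul_zero, mul_zero, add_zero, eval₂_C,
    eq_intCast] at h5
  exact hR ((pdvd_iff R).2 h5.symm)

lemma vv_prod {ι : Type} {p : ℕ} (s : Finset ι) (F : ι → ℤ) (h : ∀ i ∈ s, F i ≠ 0) :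
    vv p (∏ i ∈ s, F i) = ∑ i ∈ s, vv p (F i) := by
  classical
  induction s using Finset.induction_on with
  | empty =>
    rw [Finset.prod_empty, Finset.sum_empty]
    unfold vv
    rw [Int.natAbs_one, Nat.factorization_one]
    rfl
  | insert a s ha ih =>
    rw [Finset.prod_insert ha, Finset.sum_insert ha, vv_mul (h a (Finset.mem_insert_self a s))
      (Finset.prod_ne_zero_iff.2 fun i hi => h i (Finset.mem_insert_of_mem hi)),
      ih fun i hi => h i (Finset.mem_insert_of_mem hi)]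

lemma dvd_of_mul_gcd {N r v : ℕ} (hN : 0 < N) (h : N ∣ r * v) : N / r.gcd N ∣ v := by
  have hg : 0 < r.gcd N := Nat.gcd_pos_of_pos_right r hN
  have h1 : (N / r.gcd N).Coprime (r / r.gcd N) := (Nat.coprime_div_gcd_div_gcd hg).symm
  apply h1.dvd_of_dvd_mul_left
  obtain ⟨t, ht⟩ := h
  refine ⟨t, ?_⟩
  have h2 : r = r.gcd N * (r / r.gcd N) := (Nat.mul_div_cancel' (Nat.gcd_dvd_left r N)).symm
  have h3 : N = r.gcd N * (N / r.gcd N) := (Nat.mul_div_cancel' (Nat.gcd_dvd_right r N)).symm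
  have h4 : r.gcd N * (r / r.gcd N * v) = r.gcd N * (N / r.gcd N * t) := by
    rw [← mul_assoc, ← h2, ← mul_assoc, ← h3, ht]
  exact Nat.eq_of_mul_eq_mul_left hg h4

section

variable {ι K : Type} [Fintype ι] [DecidableEq ι] [Fintype K] [DecidableEq K]

/-- the linear forms and the form at infinity -/
def Zs (a : ι → ℤ) (U W : ℤ) : Option ι → ℤ
  | none => W
  | some i => U - a i * W

/-- the conditions for the exponents -/
def Exps (N : ℕ) (q : Option K → ℤ[X]) (e : ι → ℕ) (r : Option K → ℕ) : Prop :=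
  0 < N ∧ Even N ∧ (∀ i, (e i).Coprime N) ∧ (∀ k, (r k).gcd N ≠ 1) ∧
  (∀ k : K, Even (N / (r (some k)).gcd N)) ∧
  (∑ i, e i + ∑ k, r k * (q k).natDegree).Coprime N

/-- at most one of the forms is divisible by `p` -/
structure Uniq (a : ι → ℤ) (q : Option K → ℤ[X]) (U W : ℤ) (p : ℕ) : Prop where
  zz : ∀ s t, s ≠ t → (p : ℤ) ∣ Zs a U W s → ¬ (p : ℤ) ∣ Zs a U W t
  zq : ∀ s k, (p : ℤ) ∣ Zs a U W s → ¬ (p : ℤ) ∣ hom (q k) U W
  qq : ∀ k l, k ≠ l → (p : ℤ) ∣ hom (q k) U W → ¬ (p : ℤ) ∣ hom (q l) U W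

theorem uniq (a : ι → ℤ) (ha : Function.Injective a) (q : Option K → ℤ[X]) (hq : ∀ k i, (q k).eval (a i) ≠ 0)
    (hq0 : ∀ k, q k ≠ 0)
    (hco : ∀ k l, k ≠ l → IsCoprime ((q k).map (Int.castRingHom ℚ)) ((q l).map (Int.castRingHom ℚ))) :
    ∃ z0 : ℕ, (∀ p : ℕ, z0 < p → (∀ i j, i ≠ j → ¬ (p : ℤ) ∣ a i - a j) ∧
      (∀ k i, ¬ (p : ℤ) ∣ (q k).eval (a i)) ∧ ∀ k, ¬ (p : ℤ) ∣ (q k).leadingCoeff) ∧
      ∀ p : ℕ, p.Prime → z0 < p → ∀ U W : ℤ, IsCoprime U W → Uniq a q U W p := by
  have hbez : ∀ k l, ∃ (R : ℤ) (A B : ℤ[X]), R ≠ 0 ∧ (k ≠ l → A * q k + B * q l = C R) := by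
    intro k l
    by_cases hkl : k = l
    · exact ⟨1, 0, 0, one_ne_zero, fun h => absurd hkl h⟩
    · obtain ⟨R, A, B, h1, h2⟩ := bezout (q k) (q l) (hco k l hkl)
      exact ⟨R, A, B, h1, fun _ => h2⟩
  choose R A B hR hAB using hbez
  obtain ⟨z0, hz0⟩ : ∃ z0 : ℕ, z0 = ∑ i, ∑ j, (a i - a j).natAbs + ∑ k, ∑ i, ((q k).eval (a i)).natAbs +
    ∑ k, (q k).leadingCoeff.natAbs + ∑ k, ∑ l, (R k l).natAbs := ⟨_, rfl⟩
  have h1 : ∀ p : ℕ, z0 < p → ∀ i j, i ≠ j → ¬ (p : ℤ) ∣ a i - a j := by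
    intro p hp i j hij
    apply not_dvd_of_lt (sub_ne_zero.2 fun h => hij (ha h))
    have h1 := Finset.single_le_sum (f := fun j => (a i - a j).natAbs) (fun _ _ => Nat.zero_le _)
      (mem_univ j)
    have h2 := Finset.single_le_sum (f := fun i => ∑ j, (a i - a j).natAbs) (fun _ _ => Nat.zero_le _)
      (mem_univ i)
    omega
  have h2 : ∀ p : ℕ, z0 < p → ∀ k i, ¬ (p : ℤ) ∣ (q k).eval (a i) := by
    intro p hp k i
    apply not_dvd_of_lt (hq k i)
    have h1 := Finset.single_le_sum (f := fun i => ((q k).eval (a i)).natAbs) (fun _ _ => Nat.zero_le _)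
      (mem_univ i)
    have h2 := Finset.single_le_sum (f := fun k => ∑ i, ((q k).eval (a i)).natAbs)
      (fun _ _ => Nat.zero_le _) (mem_univ k)
    omega
  have h3 : ∀ p : ℕ, z0 < p → ∀ k, ¬ (p : ℤ) ∣ (q k).leadingCoeff := by
    intro p hp k
    apply not_dvd_of_lt (leadingCoeff_ne_zero.2 (hq0 k))
    have h1 := Finset.single_le_sum (f := fun k => (q k).leadingCoeff.natAbs)
      (fun _ _ => Nat.zero_le _) (mem_univ k)
    omega
  have h4 : ∀ p : ℕ, z0 < p → ∀ k l, ¬ (p : ℤ) ∣ R k l := by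
    intro p hp k l
    apply not_dvd_of_lt (hR k l)
    have h1 := Finset.single_le_sum (f := fun l => (R k l).natAbs) (fun _ _ => Nat.zero_le _)
      (mem_univ l)
    have h2 := Finset.single_le_sum (f := fun k => ∑ l, (R k l).natAbs) (fun _ _ => Nat.zero_le _)
      (mem_univ k)
    omega
  refine ⟨z0, fun p hp => ⟨h1 p hp, h2 p hp, h3 p hp⟩, fun p hp hzp U W hUW => ?_⟩
  have hpi := Nat.prime_iff_prime_int.1 hp
  have hUW' : ¬ ((p : ℤ) ∣ U ∧ (p : ℤ) ∣ W) := fun h => hpi.not_isUnit (hUW.isUnit_of_dvd' h.1 h.2)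
  have hLW : ∀ i, (p : ℤ) ∣ U - a i * W → ¬ (p : ℤ) ∣ W := by
    intro i h h'
    exact hUW' ⟨(dvd_sub_comm.1 (dvd_sub (Dvd.dvd.mul_left h' (a i)) (by
      have := dvd_sub (Dvd.dvd.mul_left h' (a i)) h
      have h5 : a i * W - (U - a i * W) + (U - a i * W) - (a i * W) = 0 := by ring
      have h6 : (p : ℤ) ∣ a i * W - U := by
        have := (dvd_neg (a := (p : ℤ))).2 h
        rwa [neg_sub] at this
      exact h6))) |> fun h6 => by
        have h7 : a i * W - U - a i * W = -U := by ring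
        have h8 : (p : ℤ) ∣ -U := by
          have h9 : (p : ℤ) ∣ (a i * W - U) - a i * W := by
            refine dvd_sub ?_ (Dvd.dvd.mul_left h' _)
            have := (dvd_neg (a := (p : ℤ))).2 h
            rwa [neg_sub] at this
          rwa [h7] at h9
        exact (dvd_neg).1 h8, h'⟩
  have hzq : ∀ s k, (p : ℤ) ∣ Zs a U W s → ¬ (p : ℤ) ∣ hom (q k) U W := by
    intro s k hs hk
    rcases s with _ | i
    · have hW : (p : ℤ) ∣ W := hs
      rw [pdvd_iff, hom_infty hW, ← pdvd_iff] at hk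
      rcases hpi.dvd_or_dvd hk with h | h
      · exact h3 p hzp k h
      · exact hUW' ⟨hpi.dvd_of_dvd_pow h, hW⟩
    · have hL : (p : ℤ) ∣ U - a i * W := hs
      rw [pdvd_iff, hom_at hL, ← pdvd_iff] at hk
      rcases hpi.dvd_or_dvd hk with h | h
      · exact h2 p hzp k i h
      · exact hLW i hL (hpi.dvd_of_dvd_pow h)
  refine ⟨?_, hzq, ?_⟩
  · intro s t hst hs ht
    rcases s with _ | i <;> rcases t with _ | j
    · exact hst rfl
    · exact hLW j ht hs
    · exact hLW i hs ht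
    · have hL : (p : ℤ) ∣ U - a i * W := hs
      have hL' : (p : ℤ) ∣ U - a j * W := ht
      have h5 : (p : ℤ) ∣ (a i - a j) * W := by
        have h6 := dvd_sub hL' hL
        rwa [show U - a j * W - (U - a i * W) = (a i - a j) * W by ring] at h6
      rcases hpi.dvd_or_dvd h5 with h | h
      · exact h1 p hzp i j (fun h => hst (by rw [h])) h
      · exact hLW i hL h
  · intro k l hkl hk hl
    by_cases hW : (p : ℤ) ∣ W
    · exact hzq none k hW hk
    · exact hom_cop hp hW (h4 p hzp k l) (hAB k l hkl) hk hl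

/-- the parity of the valuations -/
theorem parity {N : ℕ} {a : ι → ℤ} {q : Option K → ℤ[X]} {e : ι → ℕ} {r : Option K → ℕ}
    (hE : Exps N q e r) {p : ℕ} (hp : p.Prime) {U W A B c d : ℤ} (hd : Squarefree d)
    (hu : Uniq a q U W p) (hc : ¬ (p : ℤ) ∣ c) (hA : A ≠ 0) (hB : B ≠ 0)
    (hne : W ≠ 0 ∧ (∏ i, (Zs a U W (some i)) ^ e i) * ∏ k, (hom (q k) U W) ^ r k ≠ 0)
    (heq : d * A ^ N * W ^ (∑ i, e i + ∑ k, r k * (q k).natDegree) =
      c * B ^ N * ((∏ i, (Zs a U W (some i)) ^ e i) * ∏ k, (hom (q k) U W) ^ r k)) :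
    (¬ (p : ℤ) ∣ d → (∀ s, Even (vv p (Zs a U W s))) ∧ ∀ k : K, Even (vv p (hom (q (some k)) U W))) ∧
    ((p : ℤ) ∣ d → ∃ s, Odd (vv p (Zs a U W s))) := by
  obtain ⟨hN, hN2, he, hr, hr2, hEt⟩ := hE
  obtain ⟨T, hT⟩ : ∃ T, T = ∑ i, e i + ∑ k, r k * (q k).natDegree := ⟨_, rfl⟩
  rw [← hT] at heq hEt
  obtain ⟨hW, hprod⟩ := hne
  have hp1 : (∏ i, (Zs a U W (some i)) ^ e i) ≠ 0 := left_ne_zero_of_mul hprod
  have hp2 : (∏ k, (hom (q k) U W) ^ r k) ≠ 0 := right_ne_zero_of_mul hprod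
  have hc0 : c ≠ 0 := fun h => hc (by rw [h]; exact dvd_zero _)
  have hval : vv p d + N * vv p A + T * vv p W = N * vv p B +
      (∑ i, e i * vv p (Zs a U W (some i)) + ∑ k, r k * vv p (hom (q k) U W)) := by
    have h1 := congrArg (vv p) heq
    rw [vv_mul (mul_ne_zero hd.ne_zero (pow_ne_zero _ hA)) (pow_ne_zero _ hW),
      vv_mul hd.ne_zero (pow_ne_zero _ hA), vv_pow, vv_pow,
      vv_mul (mul_ne_zero hc0 (pow_ne_zero _ hB)) hprod, vv_mul hc0 (pow_ne_zero _ hB), vv_pow,
      vv_mul hp1 hp2, vv_zero hc, zero_add, vv_prod _ _ (fun i hi => Finset.prod_ne_zero_iff.1 hp1 i hi),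
      vv_prod _ _ (fun i hi => Finset.prod_ne_zero_iff.1 hp2 i hi)] at h1
    rw [h1]
    congr 2
    · exact Finset.sum_congr rfl fun i _ => vv_pow _
    · exact Finset.sum_congr rfl fun i _ => vv_pow _
  have hd1 : (p : ℤ) ∣ d → vv p d = 1 := fun h => by
    have h1 := vv_pos hp hd.ne_zero h
    have h2 := vv_sqf (p := p) hd
    omega
  obtain ⟨N', hN'⟩ := hN2
  -- the four cases
  by_cases hs : ∃ s, (p : ℤ) ∣ Zs a U W s
  · obtain ⟨s, hs⟩ := hs
    have hz : ∀ t, t ≠ s → vv p (Zs a U W t) = 0 := fun t ht => vv_zero (hu.zz s t ht.symm hs)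
    have hk0 : ∀ k, vv p (hom (q k) U W) = 0 := fun k => vv_zero (hu.zq s k hs)
    have hkey : ((p : ℤ) ∣ d → Odd (vv p (Zs a U W s))) ∧
        (¬ (p : ℤ) ∣ d → Even (vv p (Zs a U W s))) := by
      have hsum2 : ∑ k, r k * vv p (hom (q k) U W) = 0 :=
        Finset.sum_eq_zero fun k _ => by rw [hk0 k, mul_zero]
      rw [hsum2, add_zero] at hval
      rcases s with _ | i
      · have hsum1 : ∑ i, e i * vv p (Zs a U W (some i)) = 0 :=
          Finset.sum_eq_zero fun i _ => by rw [hz (some i) (by simp), mul_zero]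
        rw [hsum1, add_zero] at hval
        have hv : vv p (Zs a U W none) = vv p W := rfl
        rw [hv]
        constructor
        · intro h
          rw [hd1 h] at hval
          by_contra h2
          rw [Nat.not_odd_iff_even] at h2
          obtain ⟨n, hn⟩ := h2
          rw [hn, hN'] at hval
          have : (1 + 2 * (N' * vv p A) + 2 * (T * n)) = 2 * (N' * vv p B) := by linarith
          omega
        · intro h
          rw [vv_zero h, zero_add] at hval
          have h1 : N ∣ T * vv p W := by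
            have h2 : N ∣ N * vv p A + T * vv p W := by rw [hval]; exact dvd_mul_right _ _
            exact (Nat.dvd_add_right (dvd_mul_right N _)).1 h2
          have h3 : N ∣ vv p W := hEt.symm.dvd_of_dvd_mul_left h1
          exact (even_iff_two_dvd.2 ⟨N', by omega⟩ : Even N).trans_dvd h3
      · have hsum1 : ∑ j, e j * vv p (Zs a U W (some j)) = e i * vv p (Zs a U W (some i)) :=
          Finset.sum_eq_single i (fun j _ hj => by rw [hz (some j) (by simpa using hj), mul_zero])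
            (fun h => absurd (mem_univ i) h)
        have hW0 : vv p W = 0 := hz none (by simp)
        rw [hsum1, hW0, mul_zero, add_zero] at hval
        constructor
        · intro h
          rw [hd1 h] at hval
          by_contra h2
          rw [Nat.not_odd_iff_even] at h2
          obtain ⟨n, hn⟩ := h2
          rw [hn, hN'] at hval
          have : (1 + 2 * (N' * vv p A)) = 2 * (N' * vv p B) + 2 * (e i * n) := by linarith
          omega
        · intro h
          rw [vv_zero h, zero_add] at hval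
          have h1 : N ∣ e i * vv p (Zs a U W (some i)) := by
            have h2 : N ∣ N * vv p B + e i * vv p (Zs a U W (some i)) := by
              rw [← hval]; exact dvd_mul_right _ _
            exact (Nat.dvd_add_right (dvd_mul_right N _)).1 h2
          have h3 : N ∣ vv p (Zs a U W (some i)) := (he i).symm.dvd_of_dvd_mul_left h1
          exact (even_iff_two_dvd.2 ⟨N', by omega⟩ : Even N).trans_dvd h3
    refine ⟨fun h => ⟨fun t => ?_, fun k => ?_⟩, fun h => ⟨s, hkey.1 h⟩⟩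
    · by_cases ht : t = s
      · rw [ht]; exact hkey.2 h
      · rw [hz t ht]; exact Even.zero
    · rw [hk0]; exact Even.zero
  · push_neg at hs
    have hz : ∀ t, vv p (Zs a U W t) = 0 := fun t => vv_zero (hs t)
    have hsum1 : ∑ i, e i * vv p (Zs a U W (some i)) = 0 :=
      Finset.sum_eq_zero fun i _ => by rw [hz (some i), mul_zero]
    have hW0 : vv p W = 0 := hz none
    rw [hsum1, hW0, mul_zero, add_zero, zero_add] at hval
    by_cases hk : ∃ k, (p : ℤ) ∣ hom (q k) U W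
    · obtain ⟨k, hk⟩ := hk
      have hl : ∀ l, l ≠ k → vv p (hom (q l) U W) = 0 := fun l hl => vv_zero (hu.qq k l hl.symm hk)
      have hsum2 : ∑ l, r l * vv p (hom (q l) U W) = r k * vv p (hom (q k) U W) :=
        Finset.sum_eq_single k (fun l _ hlk => by rw [hl l hlk, mul_zero])
          (fun h => absurd (mem_univ k) h)
      rw [hsum2] at hval
      have hnd : ¬ (p : ℤ) ∣ d := by
        intro h
        rw [hd1 h] at hval
        have h1 : (r k).gcd N ∣ N * vv p B + r k * vv p (hom (q k) U W) :=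
          dvd_add (Dvd.dvd.mul_right (Nat.gcd_dvd_right _ _) _)
            (Dvd.dvd.mul_right (Nat.gcd_dvd_left _ _) _)
        rw [← hval] at h1
        have h2 : (r k).gcd N ∣ 1 :=
          (Nat.dvd_add_left (Dvd.dvd.mul_right (Nat.gcd_dvd_right _ _) _)).1 h1
        exact hr k (Nat.dvd_one.1 h2)
      refine ⟨fun _ => ⟨fun t => by rw [hz t]; exact Even.zero, fun l => ?_⟩, fun h => absurd h hnd⟩
      by_cases hlk : some l = k
      · rw [vv_zero hnd, zero_add, ← hlk] at hval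
        have h1 : N ∣ r (some l) * vv p (hom (q (some l)) U W) := by
          have h2 : N ∣ N * vv p B + r (some l) * vv p (hom (q (some l)) U W) := by
            rw [← hval]; exact dvd_mul_right _ _
          exact (Nat.dvd_add_right (dvd_mul_right N _)).1 h2
        exact (hr2 l).trans_dvd (dvd_of_mul_gcd hN h1)
      · rw [hl (some l) hlk]; exact Even.zero
    · push_neg at hk
      have hk0 : ∀ k, vv p (hom (q k) U W) = 0 := fun k => vv_zero (hk k)
      refine ⟨fun _ => ⟨fun t => by rw [hz t]; exact Even.zero, fun l => by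
        rw [hk0]; exact Even.zero⟩, fun h => ?_⟩
      exfalso
      have hsum2 : ∑ k, r k * vv p (hom (q k) U W) = 0 :=
        Finset.sum_eq_zero fun k _ => by rw [hk0 k, mul_zero]
      rw [hsum2, hd1 h, add_zero, hN'] at hval
      have : (1 + 2 * (N' * vv p A)) = 2 * (N' * vv p B) := by linarith
      omega

end

end Pool.Agent.W2helper7.CC
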