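import Pool.Agent.W2helper7.CC.Par
import Pool.Agent.W2helper7.CC.Key

/-!
# Twists of cyclic coverings: from points to tuples
-/

set_option autoImplicit false

namespace Pool.Agent.W2helper7.CC

open Finset Polynomial Pool.Agent.W262.RK Pool.Agent.W262.TW
open Pool.Agent.W311.TW (Dz dvd_Dz Dz_sqf Dz_pos Dz_le exists_EE exists_sqf)
open Pool.Agent.W2helper7.HT

variable {ι K : Type} [Fintype ι] [DecidableEq ι] [Fintype K] [DecidableEq K]

/-- the constants for the residue symbols of the members -/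
def CO (a : ι → ℤ) (g : K → ℤ[X]) (k0 : K) (c : Option ι → ℤ) (b : K → ℤ) : Option ι → Option ι → ℤ
  | some i, some j => c (some j) * (a i - a j) * (b k0 * (g k0).eval (a i))
  | some i, none => c none * (b k0 * (g k0).eval (a i))
  | none, some j => c (some j) * (b k0 * (g k0).leadingCoeff)
  | none, none => 1

/-- the constants for the fixed conditions -/
def EO (a : ι → ℤ) (g : K → ℤ[X]) (k0 : K) (b : K → ℤ) : Option ι → K → ℤ
  | some i, k => if Even (g k).natDegree then b k * (g k).eval (a i)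
      else b k * (g k).eval (a i) * (b k0 * (g k0).eval (a i))
  | none, k => if Even (g k).natDegree then b k * (g k).leadingCoeff
      else b k * (g k).leadingCoeff * (b k0 * (g k0).leadingCoeff)

/-- the properties of the valuations -/
def Par (a : ι → ℤ) (g : K → ℤ[X]) (z : ℕ) (d U W : ℤ) : Prop := ∀ p : ℕ, p.Prime → z < p →
  (¬ (p : ℤ) ∣ d → (∀ s, Even (vv p (Zs a U W s))) ∧ ∀ k : K, Even (vv p (hom (g k) U W))) ∧
  ((p : ℤ) ∣ d → ∃ s, Odd (vv p (Zs a U W s)))

lemma pw_even {x : ℤ} (hx : x * x = 1) {n : ℕ} (h : Even n) : x ^ n = 1 := by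
  obtain ⟨m, rfl⟩ := h
  rw [pow_add, ← mul_pow, hx, one_pow]

lemma pw_odd {x : ℤ} (hx : x * x = 1) {n : ℕ} (h : ¬ Even n) : x ^ n = x := by
  rw [Nat.not_even_iff_odd] at h
  obtain ⟨m, rfl⟩ := h
  rw [pow_succ, pow_mul, sq, hx, one_pow, one_mul]

theorem red (a : ι → ℤ) (g : K → ℤ[X]) (k0 : K) (hk0 : Odd (g k0).natDegree) (h : ℤ[X]) (z : ℕ)
    (hz : (∀ p : ℕ, z < p → (∀ i j, i ≠ j → ¬ (p : ℤ) ∣ a i - a j) ∧
      (∀ (k : Option K) i, ¬ (p : ℤ) ∣ ((k.elim h g : ℤ[X])).eval (a i)) ∧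
      ∀ k : Option K, ¬ (p : ℤ) ∣ ((k.elim h g : ℤ[X])).leadingCoeff))
    {d U W : ℤ} (hd : Squarefree d) (hUW : IsCoprime U W)
    (hu : ∀ p : ℕ, p.Prime → z < p → Uniq a (fun k : Option K => k.elim h g) U W p)
    (hZ0 : ∀ s, Zs a U W s ≠ 0) (hg0 : ∀ k, hom (g k) U W ≠ 0) (hpar : Par a g z d U W) :
    ∃ κ ∈ EE z, ∃ c : Option ι → ℤ, (∀ s, c s ∈ EE z) ∧ ∃ b : K → ℤ, (∀ k, b k ∈ EE z) ∧
      ∃ P : Option ι → ℕ, (∀ s, Rg z (P s)) ∧ (∀ s t, s ≠ t → (P s).Coprime (P t)) ∧
      d = κ * ∏ s, (P s : ℤ) ∧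
      (∀ s, ∀ p ∈ (P s).primeFactors, (∀ t, t ≠ s → jacobiSym (CO a g k0 c b s t * P t) p = 1) ∧
        ∀ k, jacobiSym (EO a g k0 b s k) p = 1) ∧
      (∃ t : Option ι → ℤ, (∀ s, t s ≠ 0) ∧ ∀ s, Zs a U W s = c s * P s * (t s) ^ 2) ∧
      ∃ t : K → ℤ, (∀ k, t k ≠ 0) ∧ ∀ k, hom (g k) U W = b k * (t k) ^ 2 := by
  have hpi : ∀ p : ℕ, p.Prime → Prime (p : ℤ) := fun p hp => Nat.prime_iff_prime_int.1 hp
  -- decompositions
  choose s T hT hs hsT using fun r => exists_sqf (Zs a U W r) (hZ0 r)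
  choose c hc hcs using fun r => exists_EE (z := z) (hs r)
  choose s' T' hT' hs' hsT' using fun k => exists_sqf (hom (g k) U W) (hg0 k)
  choose b hb hbs using fun k => exists_EE (z := z) (hs' k)
  obtain ⟨κ, hκ, hκd⟩ := exists_EE (z := z) hd
  obtain ⟨D, hD⟩ : ∃ D : ℕ, D = Dz z d := ⟨_, rfl⟩
  have hDrg : Rg z D := by rw [hD]; exact Dz_sqf hd
  obtain ⟨P, hP⟩ : ∃ P : Option ι → ℕ, P = fun r => Nat.gcd D (Zs a U W r).natAbs := ⟨_, rfl⟩
  have hPr : ∀ r, P r = Nat.gcd D (Zs a U W r).natAbs := fun r => by rw [hP]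
  have hPrg : ∀ r, Rg z (P r) := fun r => by
    rw [hPr]
    exact Rg_dvd hDrg (Nat.gcd_dvd_left _ _)
  have hp1 : ∀ p : ℕ, p.Prime → ∀ r, (p ∣ P r ↔ z < p ∧ (p : ℤ) ∣ d ∧ (p : ℤ) ∣ Zs a U W r) := by
    intro p hp r
    rw [hPr, Nat.dvd_gcd_iff, hD, dvd_Dz hd hp, ← Int.natCast_dvd, and_assoc]
  have hodd : ∀ p : ℕ, p.Prime → z < p → ∀ r, (Odd (vv p (Zs a U W r)) ↔
      (p : ℤ) ∣ d ∧ (p : ℤ) ∣ Zs a U W r) := by
    intro p hp hzp r
    have hdv : ∀ r, Odd (vv p (Zs a U W r)) → (p : ℤ) ∣ Zs a U W r := by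
      intro r ho
      by_contra h1
      rw [vv_zero h1] at ho
      exact absurd ho (by decide)
    constructor
    · intro ho
      refine ⟨?_, hdv r ho⟩
      by_contra h1
      exact (Nat.not_odd_iff_even.2 (((hpar p hp hzp).1 h1).1 r)) ho
    · rintro ⟨h1, h2⟩
      obtain ⟨t, ht⟩ := (hpar p hp hzp).2 h1
      by_cases htr : t = r
      · rwa [htr] at ht
      · exact absurd h2 ((hu p hp hzp).zz t r htr (hdv t ht))
  have hcop : ∀ r t, r ≠ t → (P r).Coprime (P t) := by
    intro r t hrt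
    rw [Nat.coprime_iff_gcd_eq_one]
    by_contra h1
    obtain ⟨p, hp, hpd⟩ := Nat.exists_prime_and_dvd h1
    have h2 := (hp1 p hp r).1 (hpd.trans (Nat.gcd_dvd_left _ _))
    have h3 := (hp1 p hp t).1 (hpd.trans (Nat.gcd_dvd_right _ _))
    exact (hu p hp h2.1).zz r t hrt h2.2.2 h3.2.2
  have hsqp : Squarefree (∏ r, P r) := by
    refine Finset.squarefree_prod_of_pairwise_isCoprime ?_ fun r _ => (hPrg r).1
    intro r _ t _ hrt
    exact Nat.coprime_iff_isRelPrime.1 (hcop r t hrt)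
  have hprod : ∏ r, P r = D := by
    rw [Nat.Squarefree.ext_iff hsqp hDrg.1]
    intro p hp
    rw [hp.prime.dvd_finset_prod_iff, hD, dvd_Dz hd hp]
    constructor
    · rintro ⟨r, -, hr⟩
      have := (hp1 p hp r).1 hr
      exact ⟨this.1, this.2.1⟩
    · rintro ⟨h1, h2⟩
      obtain ⟨t, ht⟩ := (hpar p hp h1).2 h2
      exact ⟨t, mem_univ _, (hp1 p hp t).2 ⟨h1, h2, ((hodd p hp h1 t).1 ht).2⟩⟩
  have hdd : d = κ * ∏ r, (P r : ℤ) := by
    rw [← Nat.cast_prod, hprod, hD, ← hκd]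
  -- the rough parts
  have hDz : ∀ r, Dz z (s r) = P r := by
    intro r
    rw [Nat.Squarefree.ext_iff (Dz_sqf (hs r)).1 (hPrg r).1]
    intro p hp
    rw [dvd_Dz (hs r) hp, sqf_iff hp (hT r) (hs r) (hsT r), hp1 p hp r]
    exact ⟨fun h1 => ⟨h1.1, (hodd p hp h1.1 r).1 h1.2⟩, fun h1 => ⟨h1.1, (hodd p hp h1.1 r).2 h1.2⟩⟩
  have hDz' : ∀ k, Dz z (s' k) = 1 := by
    intro k
    rw [Nat.Squarefree.ext_iff (Dz_sqf (hs' k)).1 squarefree_one]
    intro p hp
    rw [dvd_Dz (hs' k) hp, sqf_iff hp (hT' k) (hs' k) (hsT' k), Nat.dvd_one]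
    constructor
    · rintro ⟨h1, h2⟩
      exfalso
      by_cases hpd : (p : ℤ) ∣ d
      · obtain ⟨t, ht⟩ := (hpar p hp h1).2 hpd
        have h3 := (hu p hp h1).zq t (some k) ((hodd p hp h1 t).1 ht).2
        have h4 : vv p (hom (g k) U W) = 0 := vv_zero h3
        rw [h4] at h2
        exact absurd h2 (by decide)
      · exact (Nat.not_odd_iff_even.2 (((hpar p hp h1).1 hpd).2 k)) h2
    · intro h1
      exact absurd h1 hp.one_lt.ne'
  have hfin : ∀ r, Zs a U W r = c r * P r * (T r) ^ 2 := by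
    intro r
    conv_lhs => rw [hsT r, hcs r, hDz r]
  have hfin' : ∀ k, hom (g k) U W = b k * (T' k) ^ 2 := by
    intro k
    conv_lhs => rw [hsT' k, hbs k, hDz' k]
    push_cast
    ring
  refine ⟨κ, hκ, c, hc, b, hb, P, hPrg, hcop, hdd, ?_, ⟨T, hT, hfin⟩, T', hT', hfin'⟩
  intro r p hp
  have hpp := Nat.prime_of_mem_primeFactors hp
  obtain ⟨hzp, hpd, hpr⟩ := (hp1 p hpp r).1 (Nat.dvd_of_mem_primeFactors hp)
  have hU := hu p hpp hzp
  obtain ⟨hz1, hz2, hz3⟩ := hz p hzp
  -- symbols of the forms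
  have hJ : ∀ t, t ≠ r → ¬ (p : ℤ) ∣ Zs a U W t ∧
      jacobiSym (Zs a U W t) p = jacobiSym (c t * P t) p := by
    intro t ht
    have h1 := hU.zz r t ht.symm hpr
    refine ⟨h1, ?_⟩
    have h2 : ¬ (p : ℤ) ∣ T t := by
      intro h3
      apply h1
      rw [hfin t]
      exact Dvd.dvd.mul_left (dvd_pow h3 two_ne_zero) _
    conv_lhs => rw [hfin t]
    rw [jacobiSym.mul_left, jac_pow_even hpp h2 even_two, mul_one]
  have hJ' : ∀ k, ¬ (p : ℤ) ∣ hom (g k) U W ∧ jacobiSym (hom (g k) U W) p = jacobiSym (b k) p := by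
    intro k
    have h1 : ¬ (p : ℤ) ∣ hom (g k) U W := hU.zq r (some k) hpr
    refine ⟨h1, ?_⟩
    have h2 : ¬ (p : ℤ) ∣ T' k := by
      intro h3
      apply h1
      rw [hfin' k]
      exact Dvd.dvd.mul_left (dvd_pow h3 two_ne_zero) _
    conv_lhs => rw [hfin' k]
    rw [jacobiSym.mul_left, jac_pow_even hpp h2 even_two, mul_one]
  rcases r with _ | i
  · -- `p ∣ W`
    have hW : (p : ℤ) ∣ W := hpr
    have hpU : ¬ (p : ℤ) ∣ U := fun h1 => (hpi p hpp).not_isUnit (hUW.isUnit_of_dvd' h1 hW)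
    obtain ⟨u, hu'⟩ : ∃ u, u = jacobiSym U p := ⟨_, rfl⟩
    have huu : u * u = 1 := by rw [hu']; exact jac_mul_self hpp hpU
    have hL : ∀ j : ι, jacobiSym (c (some j) * P (some j)) p = u := by
      intro j
      rw [← (hJ (some j) (by simp)).2, hu']
      apply jac_congr
      have h1 : ((W : ℤ) : ZMod p) = 0 := (pdvd_iff W).1 hW
      show ((U - a j * W : ℤ) : ZMod p) = (U : ZMod p)
      push_cast
      rw [h1, mul_zero, sub_zero]
    have hG : ∀ k, jacobiSym (b k) p = jacobiSym (g k).leadingCoeff p * u ^ (g k).natDegree := by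
      intro k
      rw [← (hJ' k).2, jac_congr (hom_infty hW), jacobiSym.mul_left, jacobiSym.pow_left, hu']
    have hl : ∀ k, jacobiSym (g k).leadingCoeff p * jacobiSym (g k).leadingCoeff p = 1 := fun k =>
      jac_mul_self hpp (hz3 (some k))
    have hG0 : jacobiSym (b k0) p = jacobiSym (g k0).leadingCoeff p * u := by
      rw [hG k0, pw_odd huu (Nat.not_even_iff_odd.2 hk0)]
    constructor
    · intro t ht
      rcases t with _ | j
      · exact absurd rfl ht
      · have h1 := hL j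
        rw [jacobiSym.mul_left] at h1
        show jacobiSym (c (some j) * (b k0 * (g k0).leadingCoeff) * P (some j)) p = 1
        rw [jacobiSym.mul_left, jacobiSym.mul_left, jacobiSym.mul_left, hG0]
        linear_combination (jacobiSym (g k0).leadingCoeff p * jacobiSym (g k0).leadingCoeff p * u) * h1 +
          (u * u) * hl k0 + huu
    · intro k
      show jacobiSym (if Even (g k).natDegree then b k * (g k).leadingCoeff
        else b k * (g k).leadingCoeff * (b k0 * (g k0).leadingCoeff)) p = 1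
      split_ifs with hev
      · rw [jacobiSym.mul_left, hG k, pw_even huu hev]
        linear_combination hl k
      · rw [jacobiSym.mul_left, jacobiSym.mul_left, jacobiSym.mul_left, hG0, hG k, pw_odd huu hev]
        linear_combination (jacobiSym (g k0).leadingCoeff p * jacobiSym (g k0).leadingCoeff p * u * u) *
          hl k + (u * u) * hl k0 + huu
  · -- `p ∣ U - a i W`
    have hL : (p : ℤ) ∣ U - a i * W := hpr
    obtain ⟨hpW, hJW⟩ := hJ none (by simp)
    have hpW : ¬ (p : ℤ) ∣ W := hpW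
    have hJW : jacobiSym W p = jacobiSym (c none * P none) p := hJW
    obtain ⟨u, hu'⟩ : ∃ u, u = jacobiSym W p := ⟨_, rfl⟩
    rw [← hu'] at hJW
    have huu : u * u = 1 := by rw [hu']; exact jac_mul_self hpp hpW
    have hLj : ∀ j : ι, j ≠ i → jacobiSym (c (some j) * P (some j)) p = jacobiSym (a i - a j) p * u := by
      intro j hj
      rw [← (hJ (some j) (by simpa using hj)).2, hu', ← jacobiSym.mul_left]
      apply jac_congr
      have h1 : ((U - a i * W : ℤ) : ZMod p) = 0 := (pdvd_iff _).1 hL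
      push_cast at h1
      show ((U - a j * W : ℤ) : ZMod p) = (((a i - a j) * W : ℤ) : ZMod p)
      push_cast
      linear_combination h1
    have hG : ∀ k, jacobiSym (b k) p = jacobiSym ((g k).eval (a i)) p * u ^ (g k).natDegree := by
      intro k
      rw [← (hJ' k).2, jac_congr (hom_at hL), jacobiSym.mul_left, jacobiSym.pow_left, hu']
    have hl : ∀ k, jacobiSym ((g k).eval (a i)) p * jacobiSym ((g k).eval (a i)) p = 1 := fun k =>
      jac_mul_self hpp (hz2 (some k) i)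
    have hG0 : jacobiSym (b k0) p = jacobiSym ((g k0).eval (a i)) p * u := by
      rw [hG k0, pw_odd huu (Nat.not_even_iff_odd.2 hk0)]
    constructor
    · intro t ht
      rcases t with _ | j
      · rw [jacobiSym.mul_left] at hJW
        show jacobiSym (c none * (b k0 * (g k0).eval (a i)) * P none) p = 1
        rw [jacobiSym.mul_left, jacobiSym.mul_left, jacobiSym.mul_left, hG0]
        linear_combination (-(jacobiSym ((g k0).eval (a i)) p * jacobiSym ((g k0).eval (a i)) p * u)) *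
          hJW + (u * u) * hl k0 + huu
      · have hj : j ≠ i := fun h1 => ht (by rw [h1])
        have h1 := hLj j hj
        rw [jacobiSym.mul_left] at h1
        have haa := jac_mul_self hpp (hz1 i j hj.symm)
        show jacobiSym (c (some j) * (a i - a j) * (b k0 * (g k0).eval (a i)) * P (some j)) p = 1
        rw [jacobiSym.mul_left, jacobiSym.mul_left, jacobiSym.mul_left, jacobiSym.mul_left, hG0]
        linear_combination (jacobiSym ((g k0).eval (a i)) p * jacobiSym ((g k0).eval (a i)) p * u *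
          jacobiSym (a i - a j) p) * h1 + (u * u * jacobiSym (a i - a j) p * jacobiSym (a i - a j) p) *
          hl k0 + (u * u) * haa + huu
    · intro k
      show jacobiSym (if Even (g k).natDegree then b k * (g k).eval (a i)
        else b k * (g k).eval (a i) * (b k0 * (g k0).eval (a i))) p = 1
      split_ifs with hev
      · rw [jacobiSym.mul_left, hG k, pw_even huu hev]
        linear_combination hl k
      · rw [jacobiSym.mul_left, jacobiSym.mul_left, jacobiSym.mul_left, hG0, hG k, pw_odd huu hev]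
        linear_combination (jacobiSym ((g k0).eval (a i)) p * jacobiSym ((g k0).eval (a i)) p * u * u) *
          hl k + (u * u) * hl k0 + huu

end Pool.Agent.W2helper7.CC
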