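import Pool.Agent.W2helper7.CC.Fin

/-!
# Twists of cyclic coverings: four branch points in arithmetic progression

If every totally ramified point sees four branch points in arithmetic progression, then the
theorem on four squares in arithmetic progression excludes the constant types.
-/

set_option autoImplicit false

namespace Pool.Agent.W2helper7.CC

open Finset Filter Polynomial Topology Pool.Agent.W262.RK Pool.Agent.W262.TW
open Pool.Agent.W2helper7.HT (ev sq_mul_iff sq_cancel)

variable {ι K : Type}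

lemma ev_lin (c : ℤ) (s : ℚ) : ev (X - C c) s = s - c := by
  unfold ev
  rw [eval₂_sub, eval₂_X, eval₂_C, eq_intCast]

/-- finite rational branch points -/
def Br (a : ι → ℤ) (g : K → ℤ[X]) (b : ℤ) : Prop := (∃ i, a i = b) ∨ ∃ k, g k = X - C b

/-- infinity sees four branch points in arithmetic progression -/
def SeesI (a : ι → ℤ) (g : K → ℤ[X]) : Prop :=
  ∃ u t : ℤ, t ≠ 0 ∧ ∀ m : ℕ, m < 4 → Br a g (u + m * t)

/-- `a i` sees four branch points in arithmetic progression -/
def SeesF (a : ι → ℤ) (g : K → ℤ[X]) (i : ι) : Prop :=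
  ∃ u t : ℚ, t ≠ 0 ∧ ∀ m : ℕ, m < 4 → u + m * t = 0 ∨
    ∃ b : ℤ, Br a g b ∧ (u + m * t) * ((b : ℚ) - a i) = 1

lemma no_four {u t lam T : ℚ} (ht : t ≠ 0) (hl : lam ≠ 0)
    (h : ∀ m : ℕ, m < 4 → IsSquare ((T - (u + m * t)) * lam)) : False := by
  obtain ⟨p0, h0⟩ := h 0 (by norm_num)
  obtain ⟨p1, h1⟩ := h 1 (by norm_num)
  obtain ⟨p2, h2⟩ := h 2 (by norm_num)
  obtain ⟨p3, h3⟩ := h 3 (by norm_num)
  push_cast at h0 h1 h2 h3
  have h4 := Pool.Agent.TH213.SP.four_squares_rat (a := p0) (b := p1) (c := p2) (d := p3)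
    (by linear_combination (-2) * h1 + h0 + h2) (by linear_combination (-2) * h2 + h1 + h3)
  have h5 : t * lam = 0 := by linear_combination h0 - h1 + h4
  exact mul_ne_zero ht hl h5

/-- at a finite totally ramified point -/
lemma visF {a : ι → ℤ} {g : K → ℤ[X]} {i : ι} (hs : SeesF a g i) {x : ℚ} (hx : x ≠ a i)
    (h : ∀ b : ℤ, b ≠ a i → Br a g b → IsSquare ((x - b) * ((a i : ℚ) - b))) : False := by
  obtain ⟨u, t, ht, hm⟩ := hs
  have hx0 : x - a i ≠ 0 := sub_ne_zero.2 hx
  refine no_four (u := u) (t := t) (lam := x - a i) (T := 1 / (x - a i)) ht hx0 ?_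
  intro m hm4
  rcases hm m hm4 with h0 | ⟨b, hb, hb1⟩
  · rw [h0, sub_zero, one_div, inv_mul_cancel₀ hx0]
    exact ⟨1, by norm_num⟩
  · have hbne : (b : ℚ) - a i ≠ 0 := by
      intro h0
      rw [h0, mul_zero] at hb1
      exact zero_ne_one hb1
    have hbi : b ≠ a i := by
      rintro rfl
      exact hbne (sub_self _)
    obtain ⟨y, hy⟩ := h b hbi hb
    refine ⟨y / (a i - b), ?_⟩
    have hbne' : (a i : ℚ) - b ≠ 0 := by
      intro h0
      apply hbne
      linear_combination -h0
    have h3 : u + m * t = 1 / ((b : ℚ) - a i) := by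
      field_simp
      linear_combination hb1
    rw [h3, div_mul_div_comm, ← hy]
    field_simp
    ring

/-- at infinity -/
lemma visI {a : ι → ℤ} {g : K → ℤ[X]} (hs : SeesI a g) {x lam : ℚ} (hl : lam ≠ 0)
    (h : ∀ b : ℤ, Br a g b → IsSquare ((x - b) * lam)) : False := by
  obtain ⟨u, t, ht, hm⟩ := hs
  refine no_four (u := (u : ℚ)) (t := (t : ℚ)) (lam := lam) (T := x) (by exact_mod_cast ht) hl ?_
  intro m hm4
  have := h _ (hm m hm4)
  push_cast at this
  exact this

/-- there are no points of constant type but trivial ones -/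
lemma sees_CT {a : ι → ℤ} {g : K → ℤ[X]} [Nonempty ι] (hF : ∀ i, SeesF a g i) (hI : SeesI a g) :
    CT a g ⊆ Set.range (fun i => (a i : ℚ)) := by
  rintro x (⟨i, h1, h2⟩ | ⟨h1, h2⟩)
  · by_contra hcon
    have hx : x ≠ a i := fun h => hcon ⟨i, h.symm⟩
    refine visF (hF i) hx ?_
    rintro b hb (⟨j, rfl⟩ | ⟨k, hk⟩)
    · have h3 := h1 j (fun h => hb (by rw [h]))
      push_cast at h3
      exact h3
    · have h3 := h2 k
      rw [hk, ev_lin, eval_sub, eval_X, eval_C] at h3
      push_cast at h3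
      exact h3
  · by_contra hcon
    obtain ⟨i0⟩ := ‹Nonempty ι›
    have hx : x - a i0 ≠ 0 := by
      intro h
      exact hcon ⟨i0, by linear_combination -h⟩
    refine visI hI (x := x) hx ?_
    rintro b (⟨j, rfl⟩ | ⟨k, hk⟩)
    · exact h1 j i0
    · have h3 := h2 k i0
      rw [hk, ev_lin, leadingCoeff_X_sub_C, natDegree_X_sub_C, pow_one, Int.cast_one, one_mul] at h3
      exact h3

/-- the hypotheses without general position -/
structure Pre (a : ι → ℤ) (g : K → ℤ[X]) (h : ℤ[X]) : Prop where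
  ha : Function.Injective a
  hq : ∀ k i, (qq g h k).eval (a i) ≠ 0
  hq0 : ∀ k, qq g h k ≠ 0
  hco : ∀ k l, k ≠ l → IsCoprime ((qq g h k).map (Int.castRingHom ℚ))
    ((qq g h l).map (Int.castRingHom ℚ))
  hodd : ∃ k, Odd (g k).natDegree

lemma sees_adm {a : ι → ℤ} {g : K → ℤ[X]} {h : ℤ[X]} (hP : Pre a g h)
    (hF : ∀ i, SeesF a g i) (hI : SeesI a g) : Adm a g h := by
  obtain ⟨ha, hq, hq0, hco, ⟨k0, hk0⟩⟩ := hP
  refine ⟨ha, hq, hq0, hco, ⟨k0, hk0⟩, ?_, ?_⟩
  · intro i l hil
    by_contra hcon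
    push Not at hcon
    obtain ⟨h1, h2⟩ := hcon
    refine visF (hF i) (x := (a l : ℚ)) ?_ ?_
    · intro h
      exact hil (ha (by exact_mod_cast h.symm))
    · rintro b hb (⟨j, rfl⟩ | ⟨k, hk⟩)
      · by_cases hjl : j = l
        · rw [hjl, sub_self, zero_mul]
          exact ⟨0, by norm_num⟩
        · have h3 := castsq (h1 j (fun h => hb (by rw [h])) hjl)
          push_cast at h3
          rwa [mul_comm]
      · have h3 := castsq (h2 k)
        rw [hk, eval_sub, eval_X, eval_C, eval_sub, eval_X, eval_C] at h3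
        push_cast at h3
        rwa [mul_comm]
  · intro i
    by_contra hcon
    push Not at hcon
    obtain ⟨-, h2, h3⟩ := hcon
    have hτ : (g k0).eval (a i) * (g k0).leadingCoeff ≠ 0 :=
      mul_ne_zero (hq (some k0) i) (leadingCoeff_ne_zero.2 (hq0 (some k0)))
    refine visI hI (x := (a i : ℚ)) (lam := (((g k0).eval (a i) * (g k0).leadingCoeff : ℤ) : ℚ))
      (by exact_mod_cast hτ) ?_
    rintro b (⟨j, rfl⟩ | ⟨k, hk⟩)
    · by_cases hji : j = i
      · rw [hji, sub_self, zero_mul]
        exact ⟨0, by norm_num⟩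
      · have h4 := castsq (h3 k0 j hk0 hji)
        push_cast at h4 ⊢
        exact h4
    · have h4 := castsq (h2 k k0 (by rw [hk, natDegree_X_sub_C]; exact odd_one) hk0)
      rw [hk, leadingCoeff_X_sub_C, eval_sub, eval_X, eval_C, mul_one] at h4
      push_cast at h4 ⊢
      exact h4

/-! ### The six points -/

/-- the finite ones of the six points `∞, 0, ±1, ±3` -/
def V5 (v : ℤ) : Prop := v = 0 ∨ v = 1 ∨ v = -1 ∨ v = 3 ∨ v = -3

lemma six_sees {a : ι → ℤ} {g : K → ℤ[X]} {A B : ℤ} (hB : B ≠ 0)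
    (ha : ∀ i, ∃ v, V5 v ∧ a i = A + B * v) (hV : ∀ v, V5 v → Br a g (A + B * v)) :
    (∀ i, SeesF a g i) ∧ SeesI a g := by
  have hB' : (B : ℚ) ≠ 0 := by exact_mod_cast hB
  have b0 : Br a g (A + B * 0) := hV 0 (Or.inl rfl)
  have b1 : Br a g (A + B * 1) := hV 1 (Or.inr (Or.inl rfl))
  have b2 : Br a g (A + B * (-1)) := hV (-1) (Or.inr (Or.inr (Or.inl rfl)))
  have b3 : Br a g (A + B * 3) := hV 3 (Or.inr (Or.inr (Or.inr (Or.inl rfl))))
  have b4 : Br a g (A + B * (-3)) := hV (-3) (Or.inr (Or.inr (Or.inr (Or.inr rfl))))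
  constructor
  · intro i
    obtain ⟨v, hv, hav⟩ := ha i
    unfold SeesF
    rw [hav]
    rcases hv with rfl | rfl | rfl | rfl | rfl
    · refine ⟨-1 / B, 2 / (3 * B), by positivity, fun m hm => Or.inr ?_⟩
      interval_cases m
      · exact ⟨_, b2, by push_cast; field_simp; ring⟩
      · exact ⟨_, b4, by push_cast; field_simp; ring⟩
      · exact ⟨_, b3, by push_cast; field_simp; ring⟩
      · exact ⟨_, b1, by push_cast; field_simp; ring⟩
    · refine ⟨-1 / B, 1 / (2 * B), by positivity, fun m hm => ?_⟩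
      interval_cases m
      · exact Or.inr ⟨_, b0, by push_cast; field_simp; ring⟩
      · exact Or.inr ⟨_, b2, by push_cast; field_simp; ring⟩
      · exact Or.inl (by push_cast; field_simp; ring)
      · exact Or.inr ⟨_, b3, by push_cast; field_simp; ring⟩
    · refine ⟨1 / B, -1 / (2 * B), by positivity, fun m hm => ?_⟩
      interval_cases m
      · exact Or.inr ⟨_, b0, by push_cast; field_simp; ring⟩
      · exact Or.inr ⟨_, b1, by push_cast; field_simp; ring⟩
      · exact Or.inl (by push_cast; field_simp; ring)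
      · exact Or.inr ⟨_, b4, by push_cast; field_simp; ring⟩
    · refine ⟨-1 / (2 * B), 1 / (6 * B), by positivity, fun m hm => ?_⟩
      interval_cases m
      · exact Or.inr ⟨_, b1, by push_cast; field_simp; ring⟩
      · exact Or.inr ⟨_, b0, by push_cast; field_simp; ring⟩
      · exact Or.inr ⟨_, b4, by push_cast; field_simp; ring⟩
      · exact Or.inl (by push_cast; field_simp; ring)
    · refine ⟨1 / (2 * B), -1 / (6 * B), by positivity, fun m hm => ?_⟩
      interval_cases m
      · exact Or.inr ⟨_, b2, by push_cast; field_simp; ring⟩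
      · exact Or.inr ⟨_, b0, by push_cast; field_simp; ring⟩
      · exact Or.inr ⟨_, b3, by push_cast; field_simp; ring⟩
      · exact Or.inl (by push_cast; field_simp; ring)
  · refine ⟨A - 3 * B, 2 * B, mul_ne_zero two_ne_zero hB, fun m hm => ?_⟩
    interval_cases m
    · convert b4 using 1; push_cast; ring
    · convert b2 using 1; push_cast; ring
    · convert b1 using 1; push_cast; ring
    · convert b3 using 1; push_cast; ring

end Pool.Agent.W2helper7.CC
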